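import Mathlib
import Pool.Agent.H759R2.Kad.Assemble7

set_option linter.unusedSectionVars false

/-!
Commutants of close von Neumann algebras are close, with a universal constant.  This rests on the
norm controlled innerness of derivations of C*-algebras proved in `Pool.Agent.H759R2.Kad`.
-/

open scoped ComplexOrder InnerProductSpace ComplexConjugate Topology
open H759R2.Kad

noncomputable section

namespace U161.KK

universe u

/-- The universal constant. -/
def R0 : ℝ := 2592 * 6 ^ 25 * (4 * 2) ^ 77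

theorem one_le_R0 : 1 ≤ R0 := by rw [R0]; norm_num

variable {H : Type u} [NormedAddCommGroup H] [InnerProductSpace ℂ H] [CompleteSpace H]

/-- An operator whose commutators with `M` are small is close to the commutant of `M`. -/
theorem near_comm (M : VonNeumannAlgebra H) (t : H →L[ℂ] H) (γ : ℝ) (hγ : 0 ≤ γ)
    (h : ∀ x ∈ M, ‖t * x - x * t‖ ≤ γ * ‖x‖) :
    ∃ s : H →L[ℂ] H, (∀ x ∈ M, s * x = x * s) ∧ ‖t - s‖ ≤ R0 * γ := by
  let A := M.toStarSubalgebra
  let _ : PartialOrder A := CStarAlgebra.spectralOrder _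
  have : StarOrderedRing A := CStarAlgebra.spectralOrderedRing _
  let D : A →ₗ[ℂ] (H →L[ℂ] H) :=
    { toFun := fun x => t * (x : H →L[ℂ] H) - (x : H →L[ℂ] H) * t
      map_add' := fun x y => by
        change t * ((x : H →L[ℂ] H) + y) - ((x : H →L[ℂ] H) + y) * t = _
        rw [mul_add, add_mul]; abel
      map_smul' := fun c x => by
        change t * (c • (x : H →L[ℂ] H)) - (c • (x : H →L[ℂ] H)) * t = _
        rw [mul_smul_comm, smul_mul_assoc, ← smul_sub]; rfl }
  have hD : ∀ x : A, D x = t * (x : H →L[ℂ] H) - (x : H →L[ℂ] H) * t := fun _ => rfl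
  have hR1 : 1 ≤ R0 := one_le_R0
  obtain ⟨T, hTn, hT⟩ := final_dscale A H R0 (by linarith) (by
    intro w hw hwn
    have hl := all_cstar A (HH (Fin 2) H) w hw 2 (by norm_num) hwn
    obtain ⟨S, S', hSS, hSS', hn, hn', hs⟩ := final_similar A (HH (Fin 2) H) w hw R0 hR1 hl
    refine ⟨S, S', hSS, hSS', ?_, hs⟩
    have : (‖S‖ * ‖S'‖) ^ 2 ≤ R0 ^ 2 := by
      rw [mul_pow]
      nlinarith [sq_nonneg (‖S‖), sq_nonneg (‖S'‖)]
    exact le_of_sq_le_sq this (by linarith)) (StarSubalgebra.subtype M.toStarSubalgebra) D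
    (fun a b => by
      rw [hD, hD, hD]
      change t * ((a : H →L[ℂ] H) * b) - ((a : H →L[ℂ] H) * b) * t =
        (a : H →L[ℂ] H) * (t * b - b * t) + (t * a - a * t) * b
      noncomm_ring) γ hγ (fun a => h a a.2)
  refine ⟨t - T, fun x hx => ?_, ?_⟩
  · have e := hT ⟨x, hx⟩
    rw [hD] at e
    change t * x - x * t = T * x - x * T at e
    rw [sub_mul, mul_sub]
    rw [sub_eq_sub_iff_sub_eq_sub] at e
    exact e
  · rw [sub_sub_cancel]
    exact hTn

/-- `x` is within `γ ‖x‖` of `N`, for each `x` in `M`. -/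
def Near (M N : VonNeumannAlgebra H) (γ : ℝ) : Prop := ∀ x ∈ M, ∃ y ∈ N, ‖x - y‖ ≤ γ * ‖x‖

/-- Near inclusions pass to commutants. -/
theorem Near.commutant {M N : VonNeumannAlgebra H} {γ : ℝ} (hγ : 0 ≤ γ) (h : Near M N γ) :
    Near N.commutant M.commutant (R0 * (2 * γ)) := by
  intro t ht
  rw [VonNeumannAlgebra.mem_commutant_iff] at ht
  obtain ⟨s, hs1, hs2⟩ := near_comm M t (2 * γ * ‖t‖) (by positivity) (fun x hx => by
    obtain ⟨y, hy, hxy⟩ := h x hx
    have e : t * x - x * t = t * (x - y) - (x - y) * t := by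
      rw [mul_sub, sub_mul, ht y hy]; abel
    rw [e]
    have h1 : ‖t * (x - y)‖ ≤ ‖t‖ * (γ * ‖x‖) :=
      (norm_mul_le _ _).trans (mul_le_mul_of_nonneg_left hxy (norm_nonneg _))
    have h2 : ‖(x - y) * t‖ ≤ (γ * ‖x‖) * ‖t‖ :=
      (norm_mul_le _ _).trans (mul_le_mul_of_nonneg_right hxy (norm_nonneg _))
    refine (norm_sub_le _ _).trans ?_
    linarith)
  refine ⟨s, ?_, ?_⟩
  · rw [VonNeumannAlgebra.mem_commutant_iff]
    intro x hx
    exact (hs1 x hx).symm
  · refine hs2.trans (le_of_eq ?_)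
    ring

end U161.KK
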