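import Mathlib

set_option linter.unusedSectionVars false

/-!
Invariant operator-valued means on commutative groups of exponent two, obtained as ultrafilter
limits of averages over finite subgroups.  The existence of weak operator limits (`exists_ulim`)
repeats the proof of `H710R2.DP.dp_ulim` in arbitrary universes.
-/

open scoped ComplexOrder InnerProductSpace ComplexConjugate Topology
open Finset

noncomputable section

namespace U161.KK

universe u w

section ulim

variable {H : Type u} [NormedAddCommGroup H] [InnerProductSpace ℂ H] [CompleteSpace H]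

theorem exists_ulim {I : Type w} (U : Ultrafilter I) (T : I → (H →L[ℂ] H)) (d : ℝ)
    (hT : ∀ i, ‖T i‖ ≤ d) :
    ∃ S : H →L[ℂ] H, ‖S‖ ≤ d ∧ ∀ ξ η : H,
      Filter.Tendsto (fun i => ⟪η, T i ξ⟫_ℂ) U (nhds ⟪η, S ξ⟫_ℂ) := by
  have : Nonempty I := Filter.nonempty_of_neBot (U : Filter I)
  have hd : 0 ≤ d := (norm_nonneg _).trans (hT (Classical.arbitrary I))
  have hb : ∀ (i : I) (ξ η : H), ‖⟪η, T i ξ⟫_ℂ‖ ≤ d * ‖η‖ * ‖ξ‖ := by
    intro i ξ η
    calc ‖⟪η, T i ξ⟫_ℂ‖ ≤ ‖η‖ * ‖T i ξ‖ := norm_inner_le_norm _ _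
      _ ≤ ‖η‖ * (‖T i‖ * ‖ξ‖) := by
          gcongr
          exact (T i).le_opNorm ξ
      _ ≤ ‖η‖ * (d * ‖ξ‖) := by
          gcongr
          exact hT i
      _ = d * ‖η‖ * ‖ξ‖ := by ring
  have hex : ∀ ξ η : H, ∃ b : ℂ, ‖b‖ ≤ d * ‖η‖ * ‖ξ‖ ∧
      Filter.Tendsto (fun i => ⟪η, T i ξ⟫_ℂ) U (nhds b) := by
    intro ξ η
    obtain ⟨b, hb1, hb2⟩ := (isCompact_closedBall (0 : ℂ) (d * ‖η‖ * ‖ξ‖)).ultrafilter_le_nhds
      (U.map (fun i => ⟪η, T i ξ⟫_ℂ)) (by
        rw [Filter.le_principal_iff, Ultrafilter.coe_map, Filter.mem_map]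
        refine Filter.Eventually.of_forall fun i => ?_
        exact mem_closedBall_zero_iff.2 (hb i ξ η))
    exact ⟨b, mem_closedBall_zero_iff.1 hb1, hb2⟩
  choose B hBn hBl using hex
  have hU : Filter.NeBot (U : Filter I) := U.neBot
  have hadd_r : ∀ ξ ξ' η, B (ξ + ξ') η = B ξ η + B ξ' η := by
    intro ξ ξ' η
    refine tendsto_nhds_unique (hBl (ξ + ξ') η) (((hBl ξ η).add (hBl ξ' η)).congr fun i => ?_)
    rw [map_add, inner_add_right]
  have hsmul_r : ∀ (c : ℂ) ξ η, B (c • ξ) η = c * B ξ η := by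
    intro c ξ η
    refine tendsto_nhds_unique (hBl (c • ξ) η) (((hBl ξ η).const_mul c).congr fun i => ?_)
    rw [map_smul, inner_smul_right]
  have hadd_l : ∀ ξ η η', B ξ (η + η') = B ξ η + B ξ η' := by
    intro ξ η η'
    refine tendsto_nhds_unique (hBl ξ (η + η')) (((hBl ξ η).add (hBl ξ η')).congr fun i => ?_)
    rw [inner_add_left]
  have hsmul_l : ∀ (c : ℂ) ξ η, B ξ (c • η) = conj c * B ξ η := by
    intro c ξ η
    refine tendsto_nhds_unique (hBl ξ (c • η)) (((hBl ξ η).const_mul (conj c)).congr fun i => ?_)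
    rw [inner_smul_left]
  let ℓ : H → (H →L[ℂ] ℂ) := fun ξ => LinearMap.mkContinuous
    { toFun := fun η => conj (B ξ η)
      map_add' := fun η η' => by rw [hadd_l, map_add]
      map_smul' := fun c η => by
        rw [hsmul_l, map_mul, Complex.conj_conj, RingHom.id_apply, smul_eq_mul] }
    (d * ‖ξ‖) (fun η => by
      show ‖conj (B ξ η)‖ ≤ d * ‖ξ‖ * ‖η‖
      rw [RCLike.norm_conj]
      calc ‖B ξ η‖ ≤ d * ‖η‖ * ‖ξ‖ := hBn ξ η
        _ = d * ‖ξ‖ * ‖η‖ := by ring)
  have hℓ : ∀ ξ η, ℓ ξ η = conj (B ξ η) := fun _ _ => rfl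
  let S0 : H → H := fun ξ => (InnerProductSpace.toDual ℂ H).symm (ℓ ξ)
  have hS0 : ∀ ξ η, ⟪η, S0 ξ⟫_ℂ = B ξ η := by
    intro ξ η
    rw [← inner_conj_symm, InnerProductSpace.toDual_symm_apply, hℓ, Complex.conj_conj]
  have hS0n : ∀ ξ, ‖S0 ξ‖ ≤ d * ‖ξ‖ := by
    intro ξ
    show ‖(InnerProductSpace.toDual ℂ H).symm (ℓ ξ)‖ ≤ _
    rw [LinearIsometryEquiv.norm_map]
    exact LinearMap.mkContinuous_norm_le _ (by positivity) _
  let S : H →L[ℂ] H := LinearMap.mkContinuous
    { toFun := S0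
      map_add' := fun ξ ξ' => by
        refine ext_inner_left ℂ fun η => ?_
        rw [inner_add_right, hS0, hS0, hS0, hadd_r]
      map_smul' := fun c ξ => by
        refine ext_inner_left ℂ fun η => ?_
        rw [RingHom.id_apply, inner_smul_right, hS0, hS0, hsmul_r] } d hS0n
  refine ⟨S, LinearMap.mkContinuous_norm_le _ hd _, fun ξ η => ?_⟩
  have h1 : ⟪η, S ξ⟫_ℂ = B ξ η := hS0 ξ η
  rw [h1]
  exact hBl ξ η

end ulim

section avg

variable {G : Type w} [CommGroup G] [DecidableEq G]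
variable {E : Type u} [AddCommGroup E] [Module ℂ E]

/-- Average over the products of the subsets of `F`. -/
def avg (F : Finset G) (f : G → E) : E :=
  ((2 : ℂ) ^ F.card)⁻¹ • ∑ S ∈ F.powerset, f (∏ s ∈ S, s)

theorem avg_const (F : Finset G) (c : E) : avg F (fun _ => c) = c := by
  rw [avg, Finset.sum_const, Finset.card_powerset, ← Nat.cast_smul_eq_nsmul ℂ, smul_smul]
  push_cast
  rw [inv_mul_cancel₀ (by positivity), one_smul]

theorem avg_add (F : Finset G) (f g : G → E) :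
    avg F (fun x => f x + g x) = avg F f + avg F g := by
  rw [avg, avg, avg, Finset.sum_add_distrib, smul_add]

theorem avg_translate (h2 : ∀ g : G, g * g = 1) (F : Finset G) (f : G → E) (k : G) (hk : k ∈ F) :
    avg F (fun x => f (x * k)) = avg F f := by
  have key : ∑ S ∈ F.powerset, f ((∏ s ∈ S, s) * k) = ∑ S ∈ F.powerset, f (∏ s ∈ S, s) := by
    refine Finset.sum_nbij' (fun S => if k ∈ S then S.erase k else insert k S)
      (fun S => if k ∈ S then S.erase k else insert k S) ?_ ?_ ?_ ?_ ?_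
    · intro S hS
      rw [Finset.mem_powerset] at hS ⊢
      split_ifs
      · exact (Finset.erase_subset _ _).trans hS
      · exact Finset.insert_subset hk hS
    · intro S hS
      rw [Finset.mem_powerset] at hS ⊢
      split_ifs
      · exact (Finset.erase_subset _ _).trans hS
      · exact Finset.insert_subset hk hS
    · intro S _
      by_cases h : k ∈ S
      · simp [h]
      · simp [h]
    · intro S _
      by_cases h : k ∈ S
      · simp [h]
      · simp [h]
    · intro S _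
      by_cases h : k ∈ S
      · simp only [h, if_true]
        congr 1
        rw [← Finset.mul_prod_erase S (fun s => s) h, mul_comm k, mul_assoc, h2, mul_one]
      · simp only [h, if_false]
        rw [Finset.prod_insert h, mul_comm]
  rw [avg, avg, key]

end avg

section avgnorm

variable {G : Type w} [CommGroup G] [DecidableEq G]
variable {E : Type u} [NormedAddCommGroup E] [NormedSpace ℂ E]

theorem avg_norm_le (F : Finset G) (f : G → E) (C : ℝ) (hf : ∀ g, ‖f g‖ ≤ C) :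
    ‖avg F f‖ ≤ C := by
  rw [avg, norm_smul, norm_inv, norm_pow]
  have h1 : ‖∑ S ∈ F.powerset, f (∏ s ∈ S, s)‖ ≤ 2 ^ F.card * C := by
    refine (norm_sum_le _ _).trans ?_
    refine (Finset.sum_le_sum fun S _ => hf _).trans ?_
    rw [Finset.sum_const, Finset.card_powerset, nsmul_eq_mul]
    push_cast
    exact le_rfl
  have h2 : ‖(2 : ℂ)‖ = 2 := by simp
  rw [h2]
  calc (2 ^ F.card : ℝ)⁻¹ * ‖∑ S ∈ F.powerset, f (∏ s ∈ S, s)‖
      ≤ (2 ^ F.card : ℝ)⁻¹ * (2 ^ F.card * C) := by gcongr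
    _ = C := by
      rw [← mul_assoc, inv_mul_cancel₀ (by positivity), one_mul]

end avgnorm

section mean

variable {H : Type u} [NormedAddCommGroup H] [InnerProductSpace ℂ H] [CompleteSpace H]
variable {G : Type w} [CommGroup G]

open Classical in
/-- The invariant mean of a bounded operator valued function. -/
def mean (f : G → (H →L[ℂ] H)) : H →L[ℂ] H :=
  if h : ∃ C, ∀ g, ‖f g‖ ≤ C then
    (exists_ulim (Ultrafilter.of (Filter.atTop : Filter (Finset G))) (fun F => avg F f) h.choose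
      fun F => avg_norm_le F f _ h.choose_spec).choose
  else 0

variable (G) in
/-- The ultrafilter used for the mean. -/
def UF : Ultrafilter (Finset G) := Ultrafilter.of (Filter.atTop : Filter (Finset G))

open Classical in
theorem mean_tendsto {f : G → (H →L[ℂ] H)} {C : ℝ} (hf : ∀ g, ‖f g‖ ≤ C) (ξ η : H) :
    Filter.Tendsto (fun F => ⟪η, avg F f ξ⟫_ℂ) (UF G) (nhds ⟪η, mean f ξ⟫_ℂ) := by
  have h : ∃ C, ∀ g, ‖f g‖ ≤ C := ⟨C, hf⟩
  rw [mean, dif_pos h]
  exact (exists_ulim (Ultrafilter.of (Filter.atTop : Filter (Finset G))) (fun F => avg F f) h.choose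
      fun F => avg_norm_le F f _ h.choose_spec).choose_spec.2 ξ η

open Classical in
theorem mean_unique {f : G → (H →L[ℂ] H)} {C : ℝ} (hf : ∀ g, ‖f g‖ ≤ C) {S : H →L[ℂ] H}
    (hS : ∀ ξ η : H, Filter.Tendsto (fun F => ⟪η, avg F f ξ⟫_ℂ) (UF G) (nhds ⟪η, S ξ⟫_ℂ)) :
    mean f = S := by
  have : Filter.NeBot (UF G : Filter (Finset G)) := (UF G).neBot
  refine ContinuousLinearMap.ext fun ξ => ext_inner_left ℂ fun η => ?_
  exact tendsto_nhds_unique (mean_tendsto hf ξ η) (hS ξ η)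

theorem mean_norm_le {f : G → (H →L[ℂ] H)} {C : ℝ} (hf : ∀ g, ‖f g‖ ≤ C) : ‖mean f‖ ≤ C := by
  classical
  obtain ⟨S, hS, hS'⟩ := exists_ulim (UF G) (fun F => avg F f) C fun F => avg_norm_le F f C hf
  rw [mean_unique hf hS']
  exact hS

theorem mean_const (a : H →L[ℂ] H) : mean (fun _ : G => a) = a := by
  classical
  refine mean_unique (C := ‖a‖) (fun _ => le_rfl) fun ξ η => ?_
  simp only [avg_const]
  exact tendsto_const_nhds

theorem mean_add {f g : G → (H →L[ℂ] H)} {C D : ℝ} (hf : ∀ x, ‖f x‖ ≤ C) (hg : ∀ x, ‖g x‖ ≤ D) :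
    mean (fun x => f x + g x) = mean f + mean g := by
  classical
  refine mean_unique (C := C + D) (fun x => (norm_add_le _ _).trans (add_le_add (hf x) (hg x)))
    fun ξ η => ?_
  rw [add_apply, inner_add_right]
  refine ((mean_tendsto hf ξ η).add (mean_tendsto hg ξ η)).congr fun F => ?_
  rw [avg_add, add_apply, inner_add_right]

theorem avg_mul [DecidableEq G] (F : Finset G) (f : G → (H →L[ℂ] H)) (a b : H →L[ℂ] H) :
    avg F (fun x => a * f x * b) = a * avg F f * b := by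
  rw [avg, avg, ← Finset.sum_mul, ← Finset.mul_sum, mul_smul_comm, smul_mul_assoc]

theorem mean_mul {f : G → (H →L[ℂ] H)} {C : ℝ} (hf : ∀ x, ‖f x‖ ≤ C) (a b : H →L[ℂ] H) :
    mean (fun x => a * f x * b) = a * mean f * b := by
  classical
  refine mean_unique (C := ‖a‖ * C * ‖b‖) (fun x => ?_) fun ξ η => ?_
  · refine (norm_mul_le _ _).trans ?_
    refine mul_le_mul_of_nonneg_right ?_ (norm_nonneg b)
    exact (norm_mul_le _ _).trans (mul_le_mul_of_nonneg_left (hf x) (norm_nonneg a))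
  · have h := mean_tendsto hf (b ξ) (star a η)
    have e : ∀ T : H →L[ℂ] H, ⟪star a η, T (b ξ)⟫_ℂ = ⟪η, (a * T * b) ξ⟫_ℂ := by
      intro T
      rw [ContinuousLinearMap.star_eq_adjoint, ContinuousLinearMap.adjoint_inner_left]
      rfl
    rw [e] at h
    refine h.congr fun F => ?_
    rw [e, avg_mul]

theorem mean_mul_left {f : G → (H →L[ℂ] H)} {C : ℝ} (hf : ∀ x, ‖f x‖ ≤ C) (a : H →L[ℂ] H) :
    mean (fun x => a * f x) = a * mean f := by
  have := mean_mul hf a 1
  simpa using this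

theorem mean_mul_right {f : G → (H →L[ℂ] H)} {C : ℝ} (hf : ∀ x, ‖f x‖ ≤ C) (b : H →L[ℂ] H) :
    mean (fun x => f x * b) = mean f * b := by
  have := mean_mul hf 1 b
  simpa using this

theorem mean_neg {f : G → (H →L[ℂ] H)} {C : ℝ} (hf : ∀ x, ‖f x‖ ≤ C) :
    mean (fun x => - f x) = - mean f := by
  have := mean_mul_left hf (-1)
  simpa using this

theorem mean_sub {f g : G → (H →L[ℂ] H)} {C D : ℝ} (hf : ∀ x, ‖f x‖ ≤ C) (hg : ∀ x, ‖g x‖ ≤ D) :
    mean (fun x => f x - g x) = mean f - mean g := by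
  have := mean_add hf (g := fun x => - g x) (D := D) (fun x => by rw [norm_neg]; exact hg x)
  rw [mean_neg hg] at this
  simpa [sub_eq_add_neg] using this

theorem mean_translate (h2 : ∀ g : G, g * g = 1) {f : G → (H →L[ℂ] H)} {C : ℝ}
    (hf : ∀ x, ‖f x‖ ≤ C) (k : G) : mean (fun x => f (x * k)) = mean f := by
  classical
  refine mean_unique (C := C) (fun x => hf _) fun ξ η => ?_
  refine (mean_tendsto hf ξ η).congr' ?_
  have h1 : ∀ᶠ F in (Filter.atTop : Filter (Finset G)), k ∈ F := by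
    filter_upwards [Filter.eventually_ge_atTop ({k} : Finset G)] with F hF
    exact hF (Finset.mem_singleton_self k)
  have h3 : ∀ᶠ F in (UF G : Filter (Finset G)), k ∈ F := (Ultrafilter.of_le _) h1
  filter_upwards [h3] with F hF
  rw [avg_translate h2 F f k hF]

theorem mean_star {f : G → (H →L[ℂ] H)} {C : ℝ} (hf : ∀ x, ‖f x‖ ≤ C) :
    mean (fun x => star (f x)) = star (mean f) := by
  classical
  refine mean_unique (C := C) (fun x => by rw [norm_star]; exact hf x) fun ξ η => ?_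
  have h := (mean_tendsto hf η ξ)
  have h' := (Complex.continuous_conj.tendsto _).comp h
  have e : ∀ T : H →L[ℂ] H, conj ⟪ξ, T η⟫_ℂ = ⟪η, star T ξ⟫_ℂ := by
    intro T
    rw [inner_conj_symm, ContinuousLinearMap.star_eq_adjoint,
      ContinuousLinearMap.adjoint_inner_right]
  rw [e] at h'
  refine h'.congr fun F => ?_
  rw [Function.comp_apply, e]
  congr 2
  rw [avg, avg, star_smul, star_sum]
  congr 1
  simp

/-- The mean of a function commuting with `t` commutes with `t`. -/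
theorem mean_comm {f : G → (H →L[ℂ] H)} {C : ℝ} (hf : ∀ x, ‖f x‖ ≤ C) (t : H →L[ℂ] H)
    (ht : ∀ x, t * f x = f x * t) : t * mean f = mean f * t := by
  rw [← mean_mul_left hf, ← mean_mul_right hf]
  simp only [ht]

theorem mean_mem (N : VonNeumannAlgebra H) {f : G → (H →L[ℂ] H)} {C : ℝ} (hf : ∀ x, ‖f x‖ ≤ C)
    (hN : ∀ x, f x ∈ N) : mean f ∈ N := by
  have h : mean f ∈ Set.centralizer (Set.centralizer (N : Set (H →L[ℂ] H))) := by
    rw [Set.mem_centralizer_iff]
    intro t ht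
    refine mean_comm hf t fun x => ?_
    rw [Set.mem_centralizer_iff] at ht
    exact (ht (f x) (hN x)).symm
  rw [VonNeumannAlgebra.centralizer_centralizer] at h
  exact h

/-- Sums of vector functionals pass to the mean. -/
theorem mean_tsum {ι : Type*} {ξ η : ι → H} {f : G → (H →L[ℂ] H)} {C : ℝ}
    (hf : ∀ x, ‖f x‖ ≤ C) (hs : Summable fun n => ‖ξ n‖ * ‖η n‖) (c : ℂ)
    (hc : ∀ x, ∑' n, ⟪ξ n, f x (η n)⟫_ℂ = c) : ∑' n, ⟪ξ n, mean f (η n)⟫_ℂ = c := by
  classical
  have : Filter.NeBot (UF G : Filter (Finset G)) := (UF G).neBot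
  have hC : 0 ≤ C := (norm_nonneg _).trans (hf 1)
  have hb : ∀ (T : H →L[ℂ] H), ‖T‖ ≤ C → ∀ n, ‖⟪ξ n, T (η n)⟫_ℂ‖ ≤ C * (‖ξ n‖ * ‖η n‖) := by
    intro T hT n
    calc ‖⟪ξ n, T (η n)⟫_ℂ‖ ≤ ‖ξ n‖ * ‖T (η n)‖ := norm_inner_le_norm _ _
      _ ≤ ‖ξ n‖ * (C * ‖η n‖) := by
          gcongr
          exact T.le_of_opNorm_le hT (η n)
      _ = C * (‖ξ n‖ * ‖η n‖) := by ring
  have h1 := tendsto_tsum_of_dominated_convergence (𝓕 := (UF G : Filter (Finset G)))
    (f := fun F n => ⟪ξ n, avg F f (η n)⟫_ℂ) (g := fun n => ⟪ξ n, mean f (η n)⟫_ℂ)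
    (bound := fun n => C * (‖ξ n‖ * ‖η n‖)) (hs.mul_left C) (fun n => mean_tendsto hf _ _)
    (Filter.Eventually.of_forall fun F n => hb _ (avg_norm_le F f C hf) n)
  have h2 : ∀ F : Finset G, ∑' n, ⟪ξ n, avg F f (η n)⟫_ℂ = c := by
    intro F
    have e1 : ∀ n, ⟪ξ n, avg F f (η n)⟫_ℂ = avg F (fun x => ⟪ξ n, f x (η n)⟫_ℂ) := by
      intro n
      rw [avg, avg, smul_apply, inner_smul_right, _root_.sum_apply, inner_sum, smul_eq_mul]
    simp only [e1]
    have hsum : ∀ x, Summable fun n => ⟪ξ n, f x (η n)⟫_ℂ := fun x =>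
      Summable.of_norm_bounded (hs.mul_left C) (hb _ (hf x))
    simp only [avg, smul_eq_mul]
    rw [tsum_mul_left, Summable.tsum_finsetSum (fun S _ => hsum _)]
    simp only [hc]
    have := avg_const F c
    rw [avg, smul_eq_mul] at this
    exact this
  simp only [h2] at h1
  exact tendsto_nhds_unique h1 tendsto_const_nhds

end mean

end U161.KK
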