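import Mathlib
import Pool.Agent.U161.KK.Mean

set_option linter.unusedSectionVars false

/-!
Stability of nearly contained commutative groups of symmetries (Kazhdan, Johnson): if a group of
commuting symmetries is close to a von Neumann algebra `N`, it is moved into `N` by a unitary close
to the identity.
-/

open scoped ComplexOrder InnerProductSpace ComplexConjugate Topology
open Finset

noncomputable section

namespace U161.KK

universe u w

section basic

variable {H : Type u} [NormedAddCommGroup H] [InnerProductSpace ℂ H] [CompleteSpace H]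

theorem norm_one_le : ‖(1 : H →L[ℂ] H)‖ ≤ 1 := ContinuousLinearMap.norm_id_le

theorem inv_near_one (x : H →L[ℂ] H) (r : ℝ) (hr : r < 1) (hx : ‖x - 1‖ ≤ r) :
    ∃ y : H →L[ℂ] H, x * y = 1 ∧ y * x = 1 ∧ ‖y‖ ≤ 1 / (1 - r) ∧
      ∀ t : H →L[ℂ] H, t * x = x * t → t * y = y * t := by
  have h : ‖1 - x‖ < 1 := by rw [norm_sub_rev]; linarith
  let uu := Units.oneSub (1 - x) h
  have hu : (uu : H →L[ℂ] H) = x := by simp [uu]
  refine ⟨(↑uu⁻¹ : H →L[ℂ] H), ?_, ?_, ?_, ?_⟩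
  · rw [← hu]; exact uu.mul_inv
  · rw [← hu]; exact uu.inv_mul
  · set y : H →L[ℂ] H := (↑uu⁻¹ : H →L[ℂ] H) with hy
    have hxy : x * y = 1 := by rw [← hu]; exact uu.mul_inv
    have e : y = 1 - (x - 1) * y := by rw [sub_mul, hxy, one_mul]; abel
    have h1 : ‖y‖ ≤ 1 + r * ‖y‖ := by
      calc ‖y‖ = ‖1 - (x - 1) * y‖ := by rw [← e]
        _ ≤ ‖(1 : H →L[ℂ] H)‖ + ‖(x - 1) * y‖ := norm_sub_le _ _
        _ ≤ 1 + r * ‖y‖ := by
          refine add_le_add norm_one_le ((norm_mul_le _ _).trans ?_)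
          exact mul_le_mul_of_nonneg_right hx (norm_nonneg _)
    rw [le_div_iff₀ (by linarith)]
    linarith
  · intro t ht
    set y : H →L[ℂ] H := (↑uu⁻¹ : H →L[ℂ] H) with hy
    have hxy : x * y = 1 := by rw [← hu]; exact uu.mul_inv
    have hyx : y * x = 1 := by rw [← hu]; exact uu.inv_mul
    calc t * y = (y * x) * t * y := by rw [hyx, one_mul]
      _ = y * (x * t) * y := by simp only [mul_assoc]
      _ = y * (t * x) * y := by rw [ht]
      _ = y * t * (x * y) := by simp only [mul_assoc]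
      _ = y * t := by rw [hxy, mul_one]

theorem exists_sqrt (b : H →L[ℂ] H) (hb : star b = b) (β : ℝ) (hβ : β ≤ 1 / 2)
    (hb1 : ‖b - 1‖ ≤ β) :
    ∃ c c' : H →L[ℂ] H, star c = c ∧ c * c = b ∧ c * c' = 1 ∧ c' * c = 1 ∧ star c' = c' ∧
      ‖c - 1‖ ≤ β ∧ ‖c'‖ ≤ 2 ∧ ∀ t : H →L[ℂ] H, t * b = b * t → t * c = c * t ∧ t * c' = c' * t := by
  have hβ0 : 0 ≤ β := (norm_nonneg _).trans hb1
  have hpos : 0 ≤ b := by
    rw [ContinuousLinearMap.nonneg_iff_isPositive]
    rw [ContinuousLinearMap.isPositive_iff_complex]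
    intro x
    have hsa : IsSelfAdjoint b := hb
    have h1 : ⟪b x, x⟫_ℂ = conj ⟪b x, x⟫_ℂ := by
      rw [inner_conj_symm]
      have := ContinuousLinearMap.adjoint_inner_left b x x
      rw [← ContinuousLinearMap.star_eq_adjoint, hb] at this
      exact this
    refine ⟨?_, ?_⟩
    · have := (Complex.conj_eq_iff_re.1 h1.symm)
      exact this
    · have h2 : ⟪b x, x⟫_ℂ = ⟪(b - 1) x, x⟫_ℂ + ⟪x, x⟫_ℂ := by
        rw [← inner_add_left]
        congr 1
        simp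
      have h3 : ‖⟪(b - 1) x, x⟫_ℂ‖ ≤ β * ‖x‖ * ‖x‖ := by
        refine (norm_inner_le_norm _ _).trans ?_
        exact mul_le_mul_of_nonneg_right (ContinuousLinearMap.le_of_opNorm_le _ hb1 x)
          (norm_nonneg _)
      have h4 : (⟪x, x⟫_ℂ).re = ‖x‖ ^ 2 := by
        have := inner_self_eq_norm_sq (𝕜 := ℂ) x
        simpa using this
      have h5 : -(β * ‖x‖ * ‖x‖) ≤ (⟪(b - 1) x, x⟫_ℂ).re := by
        have := Complex.abs_re_le_norm (⟪(b - 1) x, x⟫_ℂ)
        have := abs_le.1 (this.trans h3)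
        exact this.1
      show (0 : ℝ) ≤ (⟪b x, x⟫_ℂ).re
      rw [h2, Complex.add_re, h4]
      nlinarith [norm_nonneg x, sq_nonneg ‖x‖]
  set c := CFC.sqrt b with hc
  have hc0 : 0 ≤ c := CFC.sqrt_nonneg b
  have hcc : c * c = b := CFC.sqrt_mul_sqrt_self b hpos
  have hcs : star c = c := (IsSelfAdjoint.of_nonneg hc0)
  have hc1 : ‖c - 1‖ ≤ β := by
    refine ContinuousLinearMap.opNorm_le_bound _ hβ0 fun ξ => ?_
    set η := (c - 1) ξ with hη
    have e1 : (c + 1) η = (b - 1) ξ := by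
      rw [hη, ← mul_apply_eq_comp, ← hcc]
      congr 1
      noncomm_ring
    have e2 : ‖η‖ ^ 2 ≤ (⟪(c + 1) η, η⟫_ℂ).re := by
      have : (c + 1) η = c η + η := rfl
      rw [this, inner_add_left, Complex.add_re]
      have h4 : (⟪η, η⟫_ℂ).re = ‖η‖ ^ 2 := by
        have := inner_self_eq_norm_sq (𝕜 := ℂ) η
        simpa using this
      have h5 : 0 ≤ (⟪c η, η⟫_ℂ).re := by
        have := (ContinuousLinearMap.nonneg_iff_isPositive c).1 hc0
        exact this.re_inner_nonneg_left η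
      rw [h4]
      linarith
    have e3 : (⟪(c + 1) η, η⟫_ℂ).re ≤ ‖(b - 1) ξ‖ * ‖η‖ := by
      rw [e1]
      exact (Complex.re_le_norm _).trans (norm_inner_le_norm _ _)
    have e4 : ‖(b - 1) ξ‖ ≤ β * ‖ξ‖ := ContinuousLinearMap.le_of_opNorm_le _ hb1 ξ
    rcases eq_or_lt_of_le (norm_nonneg η) with h0 | h0
    · rw [← h0]
      positivity
    · have : ‖η‖ * ‖η‖ ≤ (β * ‖ξ‖) * ‖η‖ := by
        rw [← sq]
        exact (e2.trans e3).trans (mul_le_mul_of_nonneg_right e4 h0.le)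
      exact le_of_mul_le_mul_right this h0
  obtain ⟨c', h1, h2, h3, h4⟩ := inv_near_one c β (by linarith) hc1
  refine ⟨c, c', hcs, hcc, h1, h2, ?_, hc1, ?_, ?_⟩
  · have e : star c' * c = 1 := by
      have := congrArg star h1
      rw [star_mul, hcs, star_one] at this
      exact this
    calc star c' = star c' * (c * c') := by rw [h1, mul_one]
      _ = (star c' * c) * c' := by rw [mul_assoc]
      _ = c' := by rw [e, one_mul]
  · refine h3.trans ?_
    rw [div_le_iff₀ (by linarith)]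
    linarith
  · intro t ht
    have hcomm : Commute b t := ht.symm
    have h5 : Commute c t := by
      rw [hc, CFC.sqrt]
      exact hcomm.cfcₙ_nnreal _
    exact ⟨h5.eq.symm, h4 t h5.eq.symm⟩

theorem polar_near (S : H →L[ℂ] H) (σ : ℝ) (hσ : σ ≤ 1 / 6) (hS : ‖S - 1‖ ≤ σ) :
    ∃ u d' : H →L[ℂ] H, u = S * d' ∧ star u * u = 1 ∧ u * star u = 1 ∧ ‖u - 1‖ ≤ 7 * σ ∧
      star d' = d' ∧
      ∀ t : H →L[ℂ] H, t * (star S * S) = (star S * S) * t → t * d' = d' * t := by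
  have hσ0 : 0 ≤ σ := (norm_nonneg _).trans hS
  have hS1 : ‖S‖ ≤ 1 + σ := by
    calc ‖S‖ = ‖(S - 1) + 1‖ := by rw [sub_add_cancel]
      _ ≤ ‖S - 1‖ + ‖(1 : H →L[ℂ] H)‖ := norm_add_le _ _
      _ ≤ 1 + σ := by linarith [norm_one_le (H := H)]
  have ha : ‖star S * S - 1‖ ≤ 5 / 2 * σ := by
    have e : star S * S - 1 = star (S - 1) * S + (S - 1) := by
      rw [star_sub, star_one]; noncomm_ring
    rw [e]
    refine (norm_add_le _ _).trans ?_
    have : ‖star (S - 1) * S‖ ≤ σ * (1 + σ) := by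
      refine (norm_mul_le _ _).trans ?_
      rw [norm_star]
      exact mul_le_mul hS hS1 (norm_nonneg _) hσ0
    nlinarith
  obtain ⟨d, d', hd, hdd, hdd', hd'd, hd's, hd1, hd'n, hcomm⟩ := exists_sqrt (star S * S)
    (by rw [star_mul, star_star]) (5 / 2 * σ) (by linarith) ha
  obtain ⟨y, hSy, hyS, -, -⟩ := inv_near_one S σ (by linarith) hS
  have hu1 : star (S * d') * (S * d') = 1 := by
    rw [star_mul, hd's]
    calc d' * star S * (S * d') = d' * (star S * S) * d' := by simp only [mul_assoc]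
      _ = d' * (d * d) * d' := by rw [hdd]
      _ = (d' * d) * (d * d') := by simp only [mul_assoc]
      _ = 1 := by rw [hd'd, hdd', one_mul]
  refine ⟨S * d', d', rfl, hu1, ?_, ?_, hd's, fun t ht => (hcomm t ht).2⟩
  · -- right inverse
    have e1 : (S * d') * (d * y) = 1 := by
      calc (S * d') * (d * y) = S * (d' * d) * y := by simp only [mul_assoc]
        _ = 1 := by rw [hd'd, mul_one, hSy]
    calc (S * d') * star (S * d') = (S * d') * star (S * d') * ((S * d') * (d * y)) := by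
          rw [e1, mul_one]
      _ = (S * d') * (star (S * d') * (S * d')) * (d * y) := by simp only [mul_assoc]
      _ = 1 := by rw [hu1, mul_one, e1]
  · have e : S * d' - 1 = (S - d) * d' := by rw [sub_mul, hdd']
    rw [e]
    have e2 : ‖S - d‖ ≤ 7 / 2 * σ := by
      calc ‖S - d‖ = ‖(S - 1) - (d - 1)‖ := by congr 1; abel
        _ ≤ ‖S - 1‖ + ‖d - 1‖ := norm_sub_le _ _
        _ ≤ 7 / 2 * σ := by linarith
    calc ‖(S - d) * d'‖ ≤ ‖S - d‖ * ‖d'‖ := norm_mul_le _ _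
      _ ≤ (7 / 2 * σ) * 2 := mul_le_mul e2 hd'n (norm_nonneg _) (by positivity)
      _ = 7 * σ := by ring

theorem mem_of_comm (N : VonNeumannAlgebra H) {x y : H →L[ℂ] H} (hx : x ∈ N)
    (h : ∀ t : H →L[ℂ] H, t * x = x * t → t * y = y * t) : y ∈ N := by
  have hy : y ∈ Set.centralizer (Set.centralizer (N : Set (H →L[ℂ] H))) := by
    rw [Set.mem_centralizer_iff]
    intro t ht
    rw [Set.mem_centralizer_iff] at ht
    exact h t (ht x hx).symm
  rw [VonNeumannAlgebra.centralizer_centralizer] at hy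
  exact hy

theorem mem_of_comm' (N : VonNeumannAlgebra H) {y : H →L[ℂ] H}
    (h : ∀ t : H →L[ℂ] H, (∀ x ∈ N, t * x = x * t) → t * y = y * t) : y ∈ N := by
  have hy : y ∈ Set.centralizer (Set.centralizer (N : Set (H →L[ℂ] H))) := by
    rw [Set.mem_centralizer_iff]
    intro t ht
    rw [Set.mem_centralizer_iff] at ht
    exact h t fun x hx => (ht x hx).symm
  rw [VonNeumannAlgebra.centralizer_centralizer] at hy
  exact hy

end basic

section stab

variable {H : Type u} [NormedAddCommGroup H] [InnerProductSpace ℂ H] [CompleteSpace H]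
variable {G : Type w} [CommGroup G]

/-- Covariance formula for the mean. -/
theorem mean_prod {f g : G → (H →L[ℂ] H)} {C D : ℝ} (hf : ∀ x, ‖f x‖ ≤ C) (hg : ∀ x, ‖g x‖ ≤ D) :
    mean (fun h => (f h - mean f) * (g h - mean g)) =
      mean (fun h => f h * g h) - mean f * mean g := by
  have hC : 0 ≤ C := (norm_nonneg _).trans (hf 1)
  have h1 : ∀ h, ‖f h * g h‖ ≤ C * D := fun h =>
    (norm_mul_le _ _).trans (mul_le_mul (hf h) (hg h) (norm_nonneg _) hC)
  have h2 : ∀ h, ‖mean f * g h‖ ≤ ‖mean f‖ * D := fun h =>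
    (norm_mul_le _ _).trans (mul_le_mul_of_nonneg_left (hg h) (norm_nonneg _))
  have h3 : ∀ h, ‖f h * mean g‖ ≤ C * ‖mean g‖ := fun h =>
    (norm_mul_le _ _).trans (mul_le_mul_of_nonneg_right (hf h) (norm_nonneg _))
  have e : (fun h => (f h - mean f) * (g h - mean g)) =
      fun h => (f h * g h - mean f * g h) - (f h * mean g - mean f * mean g) := by
    funext h
    rw [sub_mul, mul_sub, mul_sub]
    abel
  have h4 : ∀ h, ‖f h * g h - mean f * g h‖ ≤ C * D + ‖mean f‖ * D := fun h =>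
    (norm_sub_le _ _).trans (add_le_add (h1 h) (h2 h))
  have h5 : ∀ h, ‖f h * mean g - mean f * mean g‖ ≤ C * ‖mean g‖ + ‖mean f * mean g‖ := fun h =>
    (norm_sub_le _ _).trans (add_le_add (h3 h) le_rfl)
  rw [e, mean_sub h4 h5, mean_sub h1 h2, mean_sub h3 (D := ‖mean f * mean g‖) (fun _ => le_rfl),
    mean_mul_left hg, mean_mul_right hf, mean_const, sub_self, sub_zero]

/-- One step of the iteration. -/
theorem stab_step (hG : ∀ g : G, g * g = 1) {π : G → (H →L[ℂ] H)} (hπ : ∀ g, π g * π g = 1)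
    (hπn : ∀ g, ‖π g‖ ≤ 1) (N : VonNeumannAlgebra H) {φ : G → (H →L[ℂ] H)}
    (hφN : ∀ g, φ g ∈ N) {r η : ℝ} (hr : r ≤ 1 / 4) (h1 : ∀ g, ‖φ g - π g‖ ≤ r)
    (h2 : ∀ g k, ‖φ (g * k) - φ g * φ k‖ ≤ η) :
    ∃ φ' : G → (H →L[ℂ] H), (∀ g, φ' g ∈ N) ∧ (∀ g, ‖φ' g - φ g‖ ≤ 2 * η) ∧
      ∀ g k, ‖φ' (g * k) - φ' g * φ' k‖ ≤ 16 * η ^ 2 := by
  have hr0 : 0 ≤ r := (norm_nonneg _).trans (h1 1)
  have hη0 : 0 ≤ η := (norm_nonneg _).trans (h2 1 1)
  -- inverses
  have hinv : ∀ g, ∃ y : H →L[ℂ] H, φ g * y = 1 ∧ y * φ g = 1 ∧ ‖y‖ ≤ 2 ∧ y ∈ N := by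
    intro g
    have e : ‖φ g * π g - 1‖ ≤ r := by
      have : φ g * π g - 1 = (φ g - π g) * π g := by rw [sub_mul, hπ]
      rw [this]
      calc ‖(φ g - π g) * π g‖ ≤ ‖φ g - π g‖ * ‖π g‖ := norm_mul_le _ _
        _ ≤ r * 1 := mul_le_mul (h1 g) (hπn g) (norm_nonneg _) hr0
        _ = r := mul_one r
    obtain ⟨y, hy1, hy2, hy3, hy4⟩ := inv_near_one (φ g * π g) r (by linarith) e
    have e1 : φ g * (π g * y) = 1 := by rw [← mul_assoc, hy1]
    have e2 : (π g * y) * φ g = 1 := by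
      calc (π g * y) * φ g = π g * y * φ g * (π g * π g) := by rw [hπ, mul_one]
        _ = π g * (y * (φ g * π g)) * π g := by simp only [mul_assoc]
        _ = 1 := by rw [hy2, mul_one, hπ]
    refine ⟨π g * y, e1, e2, ?_, ?_⟩
    · calc ‖π g * y‖ ≤ ‖π g‖ * ‖y‖ := norm_mul_le _ _
        _ ≤ 1 * (1 / (1 - r)) := mul_le_mul (hπn g) hy3 (norm_nonneg _) zero_le_one
        _ ≤ 2 := by
          rw [one_mul, div_le_iff₀ (by linarith)]
          linarith
    · refine mem_of_comm N (hφN g) fun t ht => ?_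
      calc t * (π g * y) = ((π g * y) * φ g) * t * (π g * y) := by rw [e2, one_mul]
        _ = (π g * y) * (φ g * t) * (π g * y) := by simp only [mul_assoc]
        _ = (π g * y) * (t * φ g) * (π g * y) := by rw [ht]
        _ = (π g * y) * t * (φ g * (π g * y)) := by simp only [mul_assoc]
        _ = (π g * y) * t := by rw [e1, mul_one]
  choose ψ hψ1 hψ2 hψn hψN using hinv
  have hφn : ∀ g, ‖φ g‖ ≤ 2 := by
    intro g
    calc ‖φ g‖ = ‖(φ g - π g) + π g‖ := by rw [sub_add_cancel]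
      _ ≤ ‖φ g - π g‖ + ‖π g‖ := norm_add_le _ _
      _ ≤ 2 := by linarith [h1 g, hπn g]
  -- the averaged function
  obtain ⟨a, ha⟩ : ∃ a : G → G → (H →L[ℂ] H), ∀ g h, a g h = ψ h * φ (h * g) :=
    ⟨_, fun _ _ => rfl⟩
  have ha1 : ∀ g h, ‖a g h - φ g‖ ≤ 2 * η := by
    intro g h
    have e : a g h - φ g = ψ h * (φ (h * g) - φ h * φ g) := by
      rw [ha, mul_sub, ← mul_assoc, hψ2, one_mul]
    rw [e]
    calc ‖ψ h * (φ (h * g) - φ h * φ g)‖ ≤ ‖ψ h‖ * ‖φ (h * g) - φ h * φ g‖ := norm_mul_le _ _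
      _ ≤ 2 * η := mul_le_mul (hψn h) (h2 h g) (norm_nonneg _) (by norm_num)
  have hab : ∀ g h, ‖a g h‖ ≤ 4 := by
    intro g h
    rw [ha]
    calc ‖ψ h * φ (h * g)‖ ≤ ‖ψ h‖ * ‖φ (h * g)‖ := norm_mul_le _ _
      _ ≤ 2 * 2 := mul_le_mul (hψn h) (hφn _) (norm_nonneg _) (by norm_num)
      _ = 4 := by norm_num
  obtain ⟨φ', hφ'⟩ : ∃ φ' : G → (H →L[ℂ] H), ∀ g, φ' g = mean (a g) := ⟨_, fun _ => rfl⟩
  have hd : ∀ g, ‖φ' g - φ g‖ ≤ 2 * η := by
    intro g
    have e : φ' g - φ g = mean (fun h => a g h - φ g) := by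
      rw [mean_sub (hab g) (D := ‖φ g‖) (fun _ => le_rfl), mean_const, hφ']
    rw [e]
    exact mean_norm_le (ha1 g)
  refine ⟨φ', fun g => ?_, hd, fun g k => ?_⟩
  · rw [hφ']
    refine mean_mem N (hab g) fun h => ?_
    rw [ha]
    exact mul_mem (hψN h) (hφN _)
  · have e1 : φ' (g * k) = mean (fun h => a g h * a k (h * g)) := by
      rw [hφ']
      have : a (g * k) = fun h => a g h * a k (h * g) := by
        funext h
        rw [ha, ha, ha, mul_assoc (ψ h), ← mul_assoc (φ (h * g)), hψ1, one_mul, mul_assoc h]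
      rw [this]
    have e2 : φ' k = mean (fun h => a k (h * g)) := by
      rw [hφ']
      exact (mean_translate hG (hab k) g).symm
    have hb1 : ∀ h, ‖a g h * a k (h * g)‖ ≤ 16 := by
      intro h
      calc ‖a g h * a k (h * g)‖ ≤ ‖a g h‖ * ‖a k (h * g)‖ := norm_mul_le _ _
        _ ≤ 4 * 4 := mul_le_mul (hab _ _) (hab _ _) (norm_nonneg _) (by norm_num)
        _ = 16 := by norm_num
    have e3 : φ' (g * k) - φ' g * φ' k =
        mean (fun h => (a g h - φ' g) * (a k (h * g) - φ' k)) := by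
      have e4 := mean_prod (hab g) (fun h => hab k (h * g))
      rw [← e2, ← e1, ← hφ'] at e4
      exact e4.symm
    rw [e3]
    refine mean_norm_le fun h => ?_
    have f1 : ‖a g h - φ' g‖ ≤ 4 * η := by
      calc ‖a g h - φ' g‖ = ‖(a g h - φ g) - (φ' g - φ g)‖ := by congr 1; abel
        _ ≤ ‖a g h - φ g‖ + ‖φ' g - φ g‖ := norm_sub_le _ _
        _ ≤ 4 * η := by linarith [ha1 g h, hd g]
    have f2 : ‖a k (h * g) - φ' k‖ ≤ 4 * η := by
      calc ‖a k (h * g) - φ' k‖ = ‖(a k (h * g) - φ k) - (φ' k - φ k)‖ := by congr 1; abel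
        _ ≤ ‖a k (h * g) - φ k‖ + ‖φ' k - φ k‖ := norm_sub_le _ _
        _ ≤ 4 * η := by linarith [ha1 k (h * g), hd k]
    calc ‖(a g h - φ' g) * (a k (h * g) - φ' k)‖ ≤ ‖a g h - φ' g‖ * ‖a k (h * g) - φ' k‖ :=
          norm_mul_le _ _
      _ ≤ (4 * η) * (4 * η) := mul_le_mul f1 f2 (norm_nonneg _) (by positivity)
      _ = 16 * η ^ 2 := by ring

end stab

end U161.KK
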