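import Mathlib
import Pool.Agent.U161.KK.Stab

set_option linter.unusedSectionVars false

/-!
Stability of nearly contained commutative groups of symmetries, second part: the limit of the
iteration, unitarization and the conjugating unitary.
-/

open scoped ComplexOrder InnerProductSpace ComplexConjugate Topology
open Finset

noncomputable section

namespace U161.KK

universe u w

variable {H : Type u} [NormedAddCommGroup H] [InnerProductSpace ℂ H] [CompleteSpace H]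
variable {G : Type w} [CommGroup G]

theorem vn_isClosed' (N : VonNeumannAlgebra H) : IsClosed {x : H →L[ℂ] H | x ∈ N} := by
  have h : {x : H →L[ℂ] H | x ∈ N} =
      Set.centralizer (Set.centralizer (N : Set (H →L[ℂ] H))) := by
    rw [VonNeumannAlgebra.centralizer_centralizer]
    rfl
  rw [h]
  exact Set.isClosed_centralizer _

/-- The limit of the iteration. -/
theorem stab_hom (hG : ∀ g : G, g * g = 1) {π : G → (H →L[ℂ] H)} (hπ : ∀ g, π g * π g = 1)
    (hπn : ∀ g, ‖π g‖ ≤ 1) (hπm : ∀ g k, π (g * k) = π g * π k) (N : VonNeumannAlgebra H)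
    {ε : ℝ} (hε0 : 0 ≤ ε) (hε : ε ≤ 1 / 128) (hN : ∀ g, ∃ y ∈ N, ‖π g - y‖ ≤ ε) :
    ∃ ρ : G → (H →L[ℂ] H), (∀ g, ρ g ∈ N) ∧ (∀ g, ‖ρ g - π g‖ ≤ 17 * ε) ∧
      ∀ g k, ρ (g * k) = ρ g * ρ k := by
  choose φ0 hφ0 hφ0' using hN
  have hφ0n : ∀ g, ‖φ0 g - π g‖ ≤ ε := fun g => by rw [norm_sub_rev]; exact hφ0' g
  have hdef0 : ∀ g k, ‖φ0 (g * k) - φ0 g * φ0 k‖ ≤ 4 * ε := by
    intro g k
    have e : φ0 (g * k) - φ0 g * φ0 k = (φ0 (g * k) - π (g * k)) -
        ((φ0 g - π g) * φ0 k + π g * (φ0 k - π k)) := by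
      rw [hπm, sub_mul, mul_sub]; abel
    have hφk : ‖φ0 k‖ ≤ 1 + ε := by
      calc ‖φ0 k‖ = ‖(φ0 k - π k) + π k‖ := by rw [sub_add_cancel]
        _ ≤ ‖φ0 k - π k‖ + ‖π k‖ := norm_add_le _ _
        _ ≤ 1 + ε := by linarith [hφ0n k, hπn k]
    have b1 : ‖(φ0 g - π g) * φ0 k‖ ≤ ε * (1 + ε) :=
      (norm_mul_le _ _).trans (mul_le_mul (hφ0n g) hφk (norm_nonneg _) hε0)
    have b2 : ‖π g * (φ0 k - π k)‖ ≤ 1 * ε :=
      (norm_mul_le _ _).trans (mul_le_mul (hπn g) (hφ0n k) (norm_nonneg _) zero_le_one)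
    rw [e]
    refine (norm_sub_le _ _).trans ?_
    have := norm_add_le ((φ0 g - π g) * φ0 k) (π g * (φ0 k - π k))
    have := hφ0n (g * k)
    nlinarith
  -- the sequence
  let P : ℕ → (G → (H →L[ℂ] H)) → Prop := fun n φ => (∀ g, φ g ∈ N) ∧
    (∀ g, ‖φ g - π g‖ ≤ ε + 16 * ε * (1 - (1 / 2) ^ n)) ∧
    ∀ g k, ‖φ (g * k) - φ g * φ k‖ ≤ 4 * ε * (1 / 2) ^ n
  have hstep : ∀ n, ∀ φ : {φ // P n φ}, ∃ φ' : {φ // P (n + 1) φ},
      ∀ g, ‖φ'.1 g - φ.1 g‖ ≤ 8 * ε * (1 / 2) ^ n := by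
    rintro n ⟨φ, h1, h2, h3⟩
    have hpow : (0 : ℝ) < (1 / 2) ^ n := by positivity
    have hpow1 : ((1 : ℝ) / 2) ^ n ≤ 1 := pow_le_one₀ (by norm_num) (by norm_num)
    obtain ⟨φ', k1, k2, k3⟩ := stab_step hG hπ hπn N h1 (r := ε + 16 * ε * (1 - (1 / 2) ^ n))
      (η := 4 * ε * (1 / 2) ^ n) (by nlinarith) h2 h3
    refine ⟨⟨φ', k1, ?_, ?_⟩, ?_⟩
    · intro g
      have : φ' g - π g = (φ' g - φ g) + (φ g - π g) := by abel
      rw [this]
      refine (norm_add_le _ _).trans ?_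
      have a1 := k2 g
      have a2 := h2 g
      rw [pow_succ]
      nlinarith
    · intro g k
      refine (k3 g k).trans ?_
      have e2 : ((1 : ℝ) / 2) ^ (n + 1) = (1 / 2) ^ n * (1 / 2) := pow_succ _ _
      rw [e2]
      have : 16 * (4 * ε * (1 / 2) ^ n) ^ 2 = (64 * ε * (1 / 2) ^ n) * (4 * ε * (1 / 2) ^ n) := by
        ring
      rw [this]
      have hh : 64 * ε * (1 / 2) ^ n ≤ 1 / 2 := by nlinarith
      have hp : 0 ≤ 4 * ε * (1 / 2) ^ n := by positivity
      nlinarith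
    · intro g
      refine (k2 g).trans (le_of_eq ?_)
      ring
  choose nxt hnxt using hstep
  have hP0 : P 0 φ0 := ⟨hφ0, fun g => by simpa using hφ0n g, fun g k => by simpa using hdef0 g k⟩
  let sq : ∀ n, {φ // P n φ} := fun n => Nat.rec ⟨φ0, hP0⟩ (fun n φ => nxt n φ) n
  have hsq0 : (sq 0).1 = φ0 := rfl
  have hsqs : ∀ n, sq (n + 1) = nxt n (sq n) := fun n => rfl
  have hd : ∀ g n, dist ((sq n).1 g) ((sq (n + 1)).1 g) ≤ 8 * ε * (1 / 2) ^ n := by
    intro g n
    rw [dist_comm, dist_eq_norm, hsqs]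
    exact hnxt n (sq n) g
  have hc : ∀ g, CauchySeq fun n => (sq n).1 g := fun g =>
    cauchySeq_of_le_geometric (1 / 2) (8 * ε) (by norm_num) (hd g)
  have hl : ∀ g, ∃ a, Filter.Tendsto (fun n => (sq n).1 g) Filter.atTop (𝓝 a) := fun g =>
    cauchySeq_tendsto_of_complete (hc g)
  choose ρ hρ using hl
  refine ⟨ρ, fun g => ?_, fun g => ?_, fun g k => ?_⟩
  · exact (vn_isClosed' N).mem_of_tendsto (hρ g)
      (Filter.Eventually.of_forall fun n => (sq n).2.1 g)
  · have := dist_le_of_le_geometric_of_tendsto₀ (1 / 2) (8 * ε) (by norm_num) (hd g) (hρ g)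
    rw [hsq0, dist_comm, dist_eq_norm] at this
    have e : ρ g - π g = (ρ g - φ0 g) + (φ0 g - π g) := by abel
    rw [e]
    refine (norm_add_le _ _).trans ?_
    have h1 := hφ0n g
    have h2 : 8 * ε / (1 - 1 / 2) = 16 * ε := by ring
    rw [h2] at this
    linarith
  · have h1 : Filter.Tendsto (fun n => (sq n).1 (g * k) - (sq n).1 g * (sq n).1 k) Filter.atTop
        (𝓝 (ρ (g * k) - ρ g * ρ k)) := (hρ _).sub ((hρ g).mul (hρ k))
    have h2 : Filter.Tendsto (fun n => (sq n).1 (g * k) - (sq n).1 g * (sq n).1 k) Filter.atTop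
        (𝓝 0) := by
      refine squeeze_zero_norm (fun n => (sq n).2.2.2 g k) ?_
      have : Filter.Tendsto (fun n : ℕ => 4 * ε * ((1 : ℝ) / 2) ^ n) Filter.atTop
          (𝓝 (4 * ε * 0)) :=
        (tendsto_pow_atTop_nhds_zero_of_lt_one (by norm_num) (by norm_num)).const_mul _
      simpa using this
    have := tendsto_nhds_unique h1 h2
    exact sub_eq_zero.1 this

/-- Unitarization. -/
theorem stab_unit (hG : ∀ g : G, g * g = 1) {π : G → (H →L[ℂ] H)} (hπ : ∀ g, π g * π g = 1)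
    (hπs : ∀ g, star (π g) = π g) (hπ1 : π 1 = 1)
    (hπn : ∀ g, ‖π g‖ ≤ 1) (hπm : ∀ g k, π (g * k) = π g * π k) (N : VonNeumannAlgebra H)
    {ε : ℝ} (hε0 : 0 ≤ ε) (hε : ε ≤ 1 / 128) (hN : ∀ g, ∃ y ∈ N, ‖π g - y‖ ≤ ε) :
    ∃ ρ : G → (H →L[ℂ] H), (∀ g, ρ g ∈ N) ∧ (∀ g, ‖ρ g - π g‖ ≤ 425 * ε) ∧
      (∀ g k, ρ (g * k) = ρ g * ρ k) ∧ (∀ g, star (ρ g) = ρ g) ∧ ∀ g, ρ g * ρ g = 1 := by
  obtain ⟨ρ, h1, h2, h3⟩ := stab_hom hG hπ hπn hπm N hε0 hε hN
  have hρn : ∀ g, ‖ρ g‖ ≤ 1 + 17 * ε := by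
    intro g
    calc ‖ρ g‖ = ‖(ρ g - π g) + π g‖ := by rw [sub_add_cancel]
      _ ≤ ‖ρ g - π g‖ + ‖π g‖ := norm_add_le _ _
      _ ≤ 1 + 17 * ε := by linarith [h2 g, hπn g]
  have hρ1 : ρ 1 = 1 := by
    have e : ρ 1 * ρ 1 = ρ 1 := by rw [← h3, mul_one]
    have e1 : ‖ρ 1 - 1‖ ≤ 17 * ε := by rw [← hπ1]; exact h2 1
    obtain ⟨y, hy1, hy2, -, -⟩ := inv_near_one (ρ 1) (17 * ε) (by linarith) e1
    calc ρ 1 = (y * ρ 1) * ρ 1 := by rw [hy2, one_mul]
      _ = y * (ρ 1 * ρ 1) := by rw [mul_assoc]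
      _ = 1 := by rw [e, hy2]
  have hρρ : ∀ g, ρ g * ρ g = 1 := fun g => by rw [← h3, hG, hρ1]
  have hd : ∀ g, ‖star (ρ g) * ρ g - 1‖ ≤ 51 * ε := by
    intro g
    have e : star (ρ g) * ρ g - 1 = star (ρ g - π g) * ρ g + π g * (ρ g - π g) := by
      rw [star_sub, hπs, sub_mul, mul_sub, hπ]; abel
    rw [e]
    have b1 : ‖star (ρ g - π g) * ρ g‖ ≤ (17 * ε) * (1 + 17 * ε) := by
      refine (norm_mul_le _ _).trans ?_
      rw [norm_star]
      exact mul_le_mul (h2 g) (hρn g) (norm_nonneg _) (by positivity)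
    have b2 : ‖π g * (ρ g - π g)‖ ≤ 1 * (17 * ε) :=
      (norm_mul_le _ _).trans (mul_le_mul (hπn g) (h2 g) (norm_nonneg _) zero_le_one)
    refine (norm_add_le _ _).trans ?_
    nlinarith
  have hbb : ∀ g, ‖star (ρ g) * ρ g‖ ≤ 1 + 51 * ε := by
    intro g
    calc ‖star (ρ g) * ρ g‖ = ‖(star (ρ g) * ρ g - 1) + 1‖ := by rw [sub_add_cancel]
      _ ≤ ‖star (ρ g) * ρ g - 1‖ + ‖(1 : H →L[ℂ] H)‖ := norm_add_le _ _
      _ ≤ 1 + 51 * ε := by linarith [hd g, norm_one_le (H := H)]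
  obtain ⟨b, hb⟩ : ∃ b : H →L[ℂ] H, b = mean (fun g => star (ρ g) * ρ g) := ⟨_, rfl⟩
  have hbN : b ∈ N := by
    rw [hb]
    exact mean_mem N hbb fun g => mul_mem (star_mem (h1 g)) (h1 g)
  have hbs : star b = b := by
    rw [hb, ← mean_star hbb]
    congr 1
    funext g
    rw [star_mul, star_star]
  have hb1 : ‖b - 1‖ ≤ 51 * ε := by
    have : b - 1 = mean (fun g => star (ρ g) * ρ g - 1) := by
      rw [mean_sub hbb (D := 1) (fun _ => norm_one_le), mean_const, hb]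
    rw [this]
    exact mean_norm_le hd
  have hbρ : ∀ k, star (ρ k) * b * ρ k = b := by
    intro k
    rw [hb, ← mean_mul hbb]
    have e := mean_translate hG hbb k
    rw [← e]
    congr 1
    funext g
    rw [h3, star_mul]
    simp only [mul_assoc]
  obtain ⟨c, c', hcs, hcc, hcc', hc'c, hc's, hc1, hc'n, hcomm⟩ := exists_sqrt b hbs (51 * ε)
    (by linarith) hb1
  have hcN : c ∈ N := mem_of_comm N hbN fun t ht => (hcomm t ht).1
  have hc'N : c' ∈ N := mem_of_comm N hbN fun t ht => (hcomm t ht).2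
  have hu : ∀ g, star (c * ρ g * c') * (c * ρ g * c') = 1 := by
    intro g
    rw [star_mul, star_mul, hcs, hc's]
    calc c' * (star (ρ g) * c) * (c * ρ g * c') = c' * (star (ρ g) * (c * c) * ρ g) * c' := by
          simp only [mul_assoc]
      _ = c' * b * c' := by rw [hcc, hbρ]
      _ = (c' * c) * (c * c') := by rw [← hcc]; simp only [mul_assoc]
      _ = 1 := by rw [hcc', hc'c, one_mul]
  have hq : ∀ g, (c * ρ g * c') * (c * ρ g * c') = 1 := by
    intro g
    calc (c * ρ g * c') * (c * ρ g * c') = c * (ρ g * (c' * c) * ρ g) * c' := by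
          simp only [mul_assoc]
      _ = 1 := by rw [hc'c, mul_one, hρρ, mul_one, hcc']
  refine ⟨fun g => c * ρ g * c', fun g => mul_mem (mul_mem hcN (h1 g)) hc'N, fun g => ?_,
    fun g k => ?_, fun g => ?_, hq⟩
  · have e : c * ρ g * c' - π g = ((c - 1) * ρ g - ρ g * (c - 1)) * c' + (ρ g - π g) := by
      have : ((c - 1) * ρ g - ρ g * (c - 1)) * c' = c * ρ g * c' - ρ g * (c * c') := by
        noncomm_ring
      rw [this, hcc', mul_one]; abel
    rw [e]
    have b0 : ‖(c - 1) * ρ g - ρ g * (c - 1)‖ ≤ 2 * ((51 * ε) * (1 + 17 * ε)) := by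
      refine (norm_sub_le _ _).trans ?_
      have a1 : ‖(c - 1) * ρ g‖ ≤ (51 * ε) * (1 + 17 * ε) :=
        (norm_mul_le _ _).trans (mul_le_mul hc1 (hρn g) (norm_nonneg _) (by positivity))
      have a2 : ‖ρ g * (c - 1)‖ ≤ (1 + 17 * ε) * (51 * ε) :=
        (norm_mul_le _ _).trans (mul_le_mul (hρn g) hc1 (norm_nonneg _) (by positivity))
      linarith
    have b1 : ‖((c - 1) * ρ g - ρ g * (c - 1)) * c'‖ ≤ 2 * ((51 * ε) * (1 + 17 * ε)) * 2 :=
      (norm_mul_le _ _).trans (mul_le_mul b0 hc'n (norm_nonneg _) (by positivity))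
    refine (norm_add_le _ _).trans ?_
    have := h2 g
    nlinarith
  · calc c * ρ (g * k) * c' = c * ρ g * (c' * c) * ρ k * c' := by
          rw [hc'c, mul_one, h3]; simp only [mul_assoc]
      _ = c * ρ g * c' * (c * ρ k * c') := by simp only [mul_assoc]
  · calc star (c * ρ g * c') = star (c * ρ g * c') * ((c * ρ g * c') * (c * ρ g * c')) := by
          rw [hq, mul_one]
      _ = (star (c * ρ g * c') * (c * ρ g * c')) * (c * ρ g * c') := by simp only [mul_assoc]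
      _ = c * ρ g * c' := by rw [hu, one_mul]

/-- A commutative group of symmetries close to a von Neumann algebra `N` is moved into `N` by a
unitary close to `1`, which commutes with everything commuting with the group and with `N`. -/
theorem stab (hG : ∀ g : G, g * g = 1) {π : G → (H →L[ℂ] H)}
    (hπs : ∀ g, star (π g) = π g) (hπ1 : π 1 = 1)
    (hπm : ∀ g k, π (g * k) = π g * π k) (N : VonNeumannAlgebra H)
    {ε : ℝ} (hε0 : 0 ≤ ε) (hε : ε ≤ 1 / 2550) (hN : ∀ g, ∃ y ∈ N, ‖π g - y‖ ≤ ε) :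
    ∃ u : H →L[ℂ] H, star u * u = 1 ∧ u * star u = 1 ∧ ‖u - 1‖ ≤ 2975 * ε ∧
      (∀ g, u * π g * star u ∈ N) ∧
      ∀ t : H →L[ℂ] H, (∀ g, t * π g = π g * t) → (∀ y ∈ N, t * y = y * t) →
        t * u = u * t := by
  have hπ : ∀ g, π g * π g = 1 := fun g => by rw [← hπm, hG, hπ1]
  have hπn : ∀ g, ‖π g‖ ≤ 1 := by
    intro g
    have h : ‖π g‖ * ‖π g‖ ≤ 1 := by
      rw [← CStarRing.norm_star_mul_self, hπs, hπ]
      exact norm_one_le
    nlinarith [norm_nonneg (π g)]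
  obtain ⟨ρ, h1, h2, h3, h4, h5⟩ := stab_unit hG hπ hπs hπ1 hπn hπm N hε0 (by linarith) hN
  have hρn : ∀ g, ‖ρ g‖ ≤ 1 := by
    intro g
    have h : ‖ρ g‖ * ‖ρ g‖ ≤ 1 := by
      rw [← CStarRing.norm_star_mul_self, h4, h5]
      exact norm_one_le
    nlinarith [norm_nonneg (ρ g)]
  have hb : ∀ g, ‖ρ g * π g‖ ≤ 1 := fun g =>
    (norm_mul_le _ _).trans (mul_le_one₀ (hρn g) (norm_nonneg _) (hπn g))
  obtain ⟨S, hS⟩ : ∃ S : H →L[ℂ] H, S = mean (fun g => ρ g * π g) := ⟨_, rfl⟩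
  have hS1 : ‖S - 1‖ ≤ 425 * ε := by
    have : S - 1 = mean (fun g => ρ g * π g - 1) := by
      rw [mean_sub hb (D := 1) (fun _ => norm_one_le), mean_const, hS]
    rw [this]
    refine mean_norm_le fun g => ?_
    have e : ρ g * π g - 1 = (ρ g - π g) * π g := by rw [sub_mul, hπ]
    rw [e]
    calc ‖(ρ g - π g) * π g‖ ≤ ‖ρ g - π g‖ * ‖π g‖ := norm_mul_le _ _
      _ ≤ (425 * ε) * 1 := mul_le_mul (h2 g) (hπn g) (norm_nonneg _) (by positivity)
      _ = 425 * ε := mul_one _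
  have hSπ : ∀ k, S * π k = ρ k * S := by
    intro k
    have e : ρ k * S * π k = S := by
      rw [hS, ← mean_mul hb]
      have e := mean_translate hG hb k
      rw [← e]
      congr 1
      funext g
      rw [hπm, mul_comm g k, h3]
      simp only [mul_assoc]
    calc S * π k = (ρ k * S * π k) * π k := by rw [e]
      _ = ρ k * S * (π k * π k) := by simp only [mul_assoc]
      _ = ρ k * S := by rw [hπ, mul_one]
  have hSS : ∀ k, π k * (star S * S) = (star S * S) * π k := by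
    intro k
    have e : π k * star S = star S * ρ k := by
      have := congrArg star (hSπ k)
      rw [star_mul, star_mul, hπs, h4] at this
      exact this
    calc π k * (star S * S) = (π k * star S) * S := by rw [mul_assoc]
      _ = star S * (ρ k * S) := by rw [e, mul_assoc]
      _ = star S * (S * π k) := by rw [hSπ]
      _ = (star S * S) * π k := by rw [mul_assoc]
  obtain ⟨u, d', hu, hu1, hu2, hu3, hd's, hd'⟩ := polar_near S (425 * ε) (by linarith) hS1
  refine ⟨u, hu1, hu2, by linarith, fun k => ?_, fun t ht1 ht2 => ?_⟩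
  · have e : u * π k = ρ k * u := by
      calc u * π k = S * (d' * π k) := by rw [hu, mul_assoc]
        _ = S * (π k * d') := by rw [hd' (π k) (hSS k)]
        _ = (S * π k) * d' := by rw [mul_assoc]
        _ = ρ k * u := by rw [hSπ, hu, mul_assoc]
    rw [e, mul_assoc, hu2, mul_one]
    exact h1 k
  · have e1 : ∀ t : H →L[ℂ] H, (∀ g, t * π g = π g * t) → (∀ y ∈ N, t * y = y * t) →
        t * S = S * t := by
      intro t ht1 ht2
      rw [hS]
      refine mean_comm hb t fun g => ?_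
      rw [← mul_assoc, ht2 _ (h1 g), mul_assoc, ht1 g, mul_assoc]
    have e2 := e1 t ht1 ht2
    have e3 := e1 (star t) (fun g => by
        have := congrArg star (ht1 g)
        rw [star_mul, star_mul, hπs] at this
        exact this.symm) (fun y hy => by
        have := congrArg star (ht2 (star y) (star_mem hy))
        rw [star_mul, star_mul, star_star] at this
        exact this.symm)
    have e4 : t * star S = star S * t := by
      have := congrArg star e3
      rw [star_mul, star_mul, star_star] at this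
      exact this.symm
    have e5 : t * (star S * S) = (star S * S) * t := by
      rw [← mul_assoc, e4, mul_assoc, e2, mul_assoc]
    have e6 := hd' t e5
    rw [hu, ← mul_assoc, e2, mul_assoc, e6, mul_assoc]

end U161.KK
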