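import Mathlib
import Pool.Agent.H759R2.Kad.Assemble7
import Pool.Agent.U161.KK.Stab2

set_option linter.unusedSectionVars false

/-!
Maximal commuting families of projections in a von Neumann algebra.
-/

open scoped ComplexOrder InnerProductSpace ComplexConjugate Topology
open H759R2.Kad

noncomputable section

namespace U161.KK

universe u

variable {H : Type u} [NormedAddCommGroup H] [InnerProductSpace ℂ H] [CompleteSpace H]

/-- The von Neumann algebra of operators commuting with a set and its adjoints. -/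
def vnCent (S : Set (H →L[ℂ] H)) : VonNeumannAlgebra H where
  toStarSubalgebra := StarSubalgebra.centralizer ℂ S
  centralizer_centralizer' := by
    change Set.centralizer (Set.centralizer
      (StarSubalgebra.centralizer ℂ S : Set (H →L[ℂ] H))) = _
    rw [StarSubalgebra.coe_centralizer]
    rw [Set.centralizer_centralizer_centralizer]
    rfl

theorem mem_vnCent {S : Set (H →L[ℂ] H)} {x : H →L[ℂ] H} :
    x ∈ vnCent S ↔ ∀ g ∈ S, g * x = x * g ∧ star g * x = x * star g := by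
  have h1 : x ∈ vnCent S ↔ x ∈ StarSubalgebra.centralizer ℂ S := Iff.rfl
  rw [h1, StarSubalgebra.mem_centralizer_iff]

theorem pos_add_norm {A : Type u} [CStarAlgebra A] (x : A) (hx : IsSelfAdjoint x) :
    Pos (x + algebraMap ℝ A ‖x‖) := by
  let _ : PartialOrder A := CStarAlgebra.spectralOrder _
  have : StarOrderedRing A := CStarAlgebra.spectralOrderedRing _
  have h1 : 0 ≤ x + algebraMap ℝ A ‖x‖ := by
    have := hx.neg_algebraMap_norm_le_self
    rw [neg_le_iff_add_nonneg] at this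
    exact this
  obtain ⟨y, hy⟩ := CStarAlgebra.nonneg_iff_eq_star_mul_self.1 h1
  exact ⟨y, hy⟩

/-- A maximal commuting family of projections of `M`. -/
structure Masa (M : VonNeumannAlgebra H) where
  /-- The projections. -/
  P : Set (H →L[ℂ] H)
  mem : ∀ p ∈ P, p ∈ M
  pr : ∀ p ∈ P, IsPr p
  comm : ∀ p ∈ P, ∀ q ∈ P, p * q = q * p
  max : ∀ q ∈ M, IsPr q → (∀ p ∈ P, q * p = p * q) → q ∈ P

theorem exists_masa (M : VonNeumannAlgebra H) (P0 : Set (H →L[ℂ] H)) (h1 : ∀ p ∈ P0, p ∈ M)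
    (h2 : ∀ p ∈ P0, IsPr p) (h3 : ∀ p ∈ P0, ∀ q ∈ P0, p * q = q * p) :
    ∃ 𝒜 : Masa M, P0 ⊆ 𝒜.P := by
  obtain ⟨P, hP0, hP⟩ := zorn_subset_nonempty
    {P : Set (H →L[ℂ] H) | (∀ p ∈ P, p ∈ M) ∧ (∀ p ∈ P, IsPr p) ∧ ∀ p ∈ P, ∀ q ∈ P, p * q = q * p}
    (by
      intro c hc hch _
      refine ⟨⋃₀ c, ⟨?_, ?_, ?_⟩, fun s hs => Set.subset_sUnion_of_mem hs⟩
      · rintro p ⟨s, hs, hp⟩
        exact (hc hs).1 p hp
      · rintro p ⟨s, hs, hp⟩
        exact (hc hs).2.1 p hp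
      · rintro p ⟨s, hs, hp⟩ q ⟨t, ht, hq⟩
        rcases hch.total hs ht with h | h
        · exact (hc ht).2.2 p (h hp) q hq
        · exact (hc hs).2.2 p hp q (h hq)) P0 ⟨h1, h2, h3⟩
  refine ⟨⟨P, hP.prop.1, hP.prop.2.1, hP.prop.2.2, fun q hq hq' hqc => ?_⟩, hP0⟩
  have h := hP.le_of_ge (y := insert q P) ⟨?_, ?_, ?_⟩ (Set.subset_insert q P)
  · exact h (Set.mem_insert q P)
  · rintro p (rfl | hp)
    · exact hq
    · exact hP.prop.1 p hp
  · rintro p (rfl | hp)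
    · exact hq'
    · exact hP.prop.2.1 p hp
  · rintro p (rfl | hp) r (rfl | hr)
    · rfl
    · exact hqc r hr
    · exact (hqc p hp).symm
    · exact hP.prop.2.2 p hp r hr

namespace Masa

variable {M : VonNeumannAlgebra H} (𝒜 : Masa M)

theorem one_mem : (1 : H →L[ℂ] H) ∈ 𝒜.P :=
  𝒜.max 1 (OneMemClass.one_mem M) ⟨star_one _, one_mul _⟩ fun p _ => by rw [one_mul, mul_one]

theorem compl_mem {p : H →L[ℂ] H} (hp : p ∈ 𝒜.P) : 1 - p ∈ 𝒜.P := by
  refine 𝒜.max _ (sub_mem (OneMemClass.one_mem M) (𝒜.mem p hp)) ⟨?_, ?_⟩ fun q hq => ?_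
  · rw [star_sub, star_one, (𝒜.pr p hp).1]
  · rw [sub_mul, one_mul, mul_sub, mul_one, (𝒜.pr p hp).2, sub_self, sub_zero]
  · rw [sub_mul, mul_sub, one_mul, mul_one, 𝒜.comm p hp q hq]

/-- The relative commutant of the family. -/
def rc : VonNeumannAlgebra H := vnCent ((M.commutant : Set (H →L[ℂ] H)) ∪ 𝒜.P)

theorem mem_rc {x : H →L[ℂ] H} : x ∈ 𝒜.rc ↔ x ∈ M ∧ ∀ p ∈ 𝒜.P, x * p = p * x := by
  rw [rc, mem_vnCent]
  constructor
  · intro h
    refine ⟨?_, fun p hp => (h p (Or.inr hp)).1.symm⟩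
    rw [← VonNeumannAlgebra.commutant_commutant M, VonNeumannAlgebra.mem_commutant_iff]
    intro g hg
    exact (h g (Or.inl hg)).1
  · rintro ⟨h1, h2⟩ g (hg | hg)
    · have hg1 : g ∈ M.commutant := hg
      have hg2 : star g ∈ M.commutant := star_mem hg1
      rw [VonNeumannAlgebra.mem_commutant_iff] at hg1 hg2
      exact ⟨(hg1 x h1).symm, (hg2 x h1).symm⟩
    · rw [(𝒜.pr g hg).1]
      exact ⟨(h2 g hg).symm, (h2 g hg).symm⟩

theorem pr_mem_of_rc {x : H →L[ℂ] H} (hx : x ∈ 𝒜.rc) (hp : IsPr x) : x ∈ 𝒜.P := by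
  rw [mem_rc] at hx
  exact 𝒜.max x hx.1 hp hx.2

theorem pos_mem_closure (b : 𝒜.rc.toStarSubalgebra) (hb : Pos b) :
    (b : H →L[ℂ] H) ∈ closure (Submodule.span ℂ 𝒜.P : Set (H →L[ℂ] H)) := by
  rw [Metric.mem_closure_iff]
  intro ε hε
  obtain ⟨n, e, l, h1, h2⟩ := prove6_step 𝒜.rc.toStarSubalgebra (all_wst H 𝒜.rc) b 1 hb
    ⟨star_one _, one_mul _⟩ (one_mul _) (ε / 2) (by positivity)
  refine ⟨∑ i, (l i : ℂ) • (e i : H →L[ℂ] H), ?_, ?_⟩
  · refine Submodule.sum_mem _ fun i _ => Submodule.smul_mem _ _ (Submodule.subset_span ?_)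
    refine 𝒜.pr_mem_of_rc (e i).2 ?_
    have := (h1 i).2.1
    refine ⟨?_, ?_⟩
    · have h3 := congrArg Subtype.val this.1
      exact h3
    · have h3 := congrArg Subtype.val this.2
      exact h3
  · rw [dist_eq_norm]
    have e1 : ‖(b : H →L[ℂ] H) - ∑ i, (l i : ℂ) • (e i : H →L[ℂ] H)‖ =
        ‖b - ∑ i, (l i : ℂ) • e i‖ := by
      have : ((b - ∑ i, (l i : ℂ) • e i : 𝒜.rc.toStarSubalgebra) : H →L[ℂ] H) =
          (b : H →L[ℂ] H) - ∑ i, (l i : ℂ) • (e i : H →L[ℂ] H) := by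
        push_cast
        rfl
      rw [← this]
      rfl
    rw [e1]
    linarith

theorem sa_mem_closure (x : 𝒜.rc.toStarSubalgebra) (hx : IsSelfAdjoint x) :
    (x : H →L[ℂ] H) ∈ closure (Submodule.span ℂ 𝒜.P : Set (H →L[ℂ] H)) := by
  have h2 : Pos (x + algebraMap ℝ _ ‖x‖) := pos_add_norm x hx
  have h3 := 𝒜.pos_mem_closure _ h2
  have h4 : ((x + algebraMap ℝ _ ‖x‖ : 𝒜.rc.toStarSubalgebra) : H →L[ℂ] H) =
      (x : H →L[ℂ] H) + ((‖x‖ : ℝ) : ℂ) • (1 : H →L[ℂ] H) := by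
    rw [Algebra.algebraMap_eq_smul_one]
    rfl
  rw [h4] at h3
  have h5 : ((‖x‖ : ℝ) : ℂ) • (1 : H →L[ℂ] H) ∈ (Submodule.span ℂ 𝒜.P).topologicalClosure :=
    Submodule.le_topologicalClosure _ (Submodule.smul_mem _ _ (Submodule.subset_span 𝒜.one_mem))
  have h6 : (x : H →L[ℂ] H) + ((‖x‖ : ℝ) : ℂ) • (1 : H →L[ℂ] H) ∈
      (Submodule.span ℂ 𝒜.P).topologicalClosure := h3
  have h7 := Submodule.sub_mem _ h6 h5
  rw [add_sub_cancel_right] at h7
  exact h7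

/-- The relative commutant of a maximal commuting family of projections is its closed span. -/
theorem mem_closure {x : H →L[ℂ] H} (hx : x ∈ M) (hc : ∀ p ∈ 𝒜.P, x * p = p * x) :
    x ∈ (Submodule.span ℂ 𝒜.P).topologicalClosure := by
  have hr : x ∈ 𝒜.rc := 𝒜.mem_rc.2 ⟨hx, hc⟩
  let y : 𝒜.rc.toStarSubalgebra := ⟨x, hr⟩
  have h1 : (((2 : ℂ)⁻¹ • (y + star y) : 𝒜.rc.toStarSubalgebra) : H →L[ℂ] H) ∈
      (Submodule.span ℂ 𝒜.P).topologicalClosure := by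
    refine 𝒜.sa_mem_closure _ ?_
    rw [isSelfAdjoint_iff, star_smul, star_add, star_star, add_comm]
    simp
  have h2 : (((-Complex.I * (2 : ℂ)⁻¹) • (y - star y) : 𝒜.rc.toStarSubalgebra) : H →L[ℂ] H) ∈
      (Submodule.span ℂ 𝒜.P).topologicalClosure := by
    refine 𝒜.sa_mem_closure _ ?_
    rw [isSelfAdjoint_iff, star_smul, star_sub, star_star]
    simp only [star_mul', star_neg, Complex.star_def, Complex.conj_I, map_inv₀, map_ofNat, neg_neg]
    rw [← neg_sub y, smul_neg, neg_mul, neg_smul]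
  have h3 := Submodule.add_mem _ h1 (Submodule.smul_mem _ Complex.I h2)
  have e : (((2 : ℂ)⁻¹ • (y + star y) : 𝒜.rc.toStarSubalgebra) : H →L[ℂ] H) + Complex.I •
      (((-Complex.I * (2 : ℂ)⁻¹) • (y - star y) : 𝒜.rc.toStarSubalgebra) : H →L[ℂ] H) = x := by
    change (2 : ℂ)⁻¹ • (x + star x) + Complex.I • ((-Complex.I * (2 : ℂ)⁻¹) • (x - star x)) = x
    rw [smul_smul]
    have : Complex.I * (-Complex.I * (2 : ℂ)⁻¹) = 2⁻¹ := by
      rw [← mul_assoc, mul_neg, Complex.I_mul_I]; ring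
    rw [this, ← smul_add]
    have : x + star x + (x - star x) = (2 : ℂ) • x := by
      rw [two_smul]; abel
    rw [this, smul_smul, inv_mul_cancel₀ (by norm_num), one_smul]
  rw [e] at h3
  exact h3

/-- The group of symmetries of the family. -/
def Sym : Type u :=
  {s : H →L[ℂ] H // s ∈ M ∧ star s = s ∧ s * s = 1 ∧ ∀ p ∈ 𝒜.P, s * p = p * s}

theorem half_mem (s : 𝒜.Sym) : (2 : ℂ)⁻¹ • (1 - s.1) ∈ 𝒜.P := by
  obtain ⟨s, hs⟩ := s
  obtain ⟨h1, h2, h3, h4⟩ := id hs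
  change (2 : ℂ)⁻¹ • (1 - s) ∈ 𝒜.P
  clear hs
  refine 𝒜.max _ ?_ ⟨?_, ?_⟩ fun p hp => ?_
  · exact SMulMemClass.smul_mem (S := StarSubalgebra ℂ (H →L[ℂ] H)) (s := M.toStarSubalgebra) _
      (sub_mem (OneMemClass.one_mem M) h1)
  · rw [star_smul, star_sub, star_one, h2]
    simp
  · rw [smul_mul_smul_comm, sub_mul, mul_sub, mul_sub, one_mul, one_mul, mul_one, h3]
    have : (1 : H →L[ℂ] H) - s - (s - 1) = (2 : ℂ) • (1 - s) := by
      rw [two_smul]; abel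
    rw [this, smul_smul]
    norm_num
  · rw [smul_mul_assoc, mul_smul_comm, sub_mul, mul_sub, one_mul, mul_one, h4 p hp]

theorem sym_comm (s t : 𝒜.Sym) : s.1 * t.1 = t.1 * s.1 := by
  have h := 𝒜.comm _ (𝒜.half_mem s) _ (𝒜.half_mem t)
  rw [smul_mul_smul_comm, smul_mul_smul_comm] at h
  have h' := congrArg (fun x => (4 : ℂ) • x) h
  simp only [smul_smul] at h'
  norm_num at h'
  rw [sub_mul, sub_mul, mul_sub, mul_sub, mul_sub, mul_sub, one_mul, one_mul, one_mul, mul_one,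
    mul_one] at h'
  have e : s.1 * t.1 = (1 - t.1 - (s.1 - s.1 * t.1)) - 1 + t.1 + s.1 := by abel
  rw [e, h']
  abel

instance : CommGroup 𝒜.Sym where
  mul s t := ⟨s.1 * t.1, mul_mem s.2.1 t.2.1, by
    rw [star_mul, s.2.2.1, t.2.2.1, 𝒜.sym_comm], by
    rw [mul_assoc, ← mul_assoc t.1, 𝒜.sym_comm t s, mul_assoc, t.2.2.2.1, mul_one, s.2.2.2.1],
    fun p hp => by rw [mul_assoc, t.2.2.2.2 p hp, ← mul_assoc, s.2.2.2.2 p hp, mul_assoc]⟩
  one := ⟨1, OneMemClass.one_mem M, star_one _, one_mul _, fun p _ => by rw [one_mul, mul_one]⟩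
  inv s := s
  mul_assoc s t r := Subtype.ext (mul_assoc s.1 t.1 r.1)
  one_mul s := Subtype.ext (one_mul s.1)
  mul_one s := Subtype.ext (mul_one s.1)
  inv_mul_cancel s := Subtype.ext s.2.2.2.1
  mul_comm s t := Subtype.ext (𝒜.sym_comm s t)

theorem sym_mul_val (s t : 𝒜.Sym) : (s * t).1 = s.1 * t.1 := rfl

theorem sym_one_val : (1 : 𝒜.Sym).1 = 1 := rfl

theorem sym_sq (s : 𝒜.Sym) : s * s = 1 := Subtype.ext s.2.2.2.1

/-- The symmetry `1 - 2p`. -/
def symOf {p : H →L[ℂ] H} (hp : p ∈ 𝒜.P) : 𝒜.Sym :=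
  ⟨1 - (2 : ℂ) • p, sub_mem (OneMemClass.one_mem M)
    (SMulMemClass.smul_mem (S := StarSubalgebra ℂ (H →L[ℂ] H)) (s := M.toStarSubalgebra) _
      (𝒜.mem p hp)), by
    rw [star_sub, star_one, star_smul, (𝒜.pr p hp).1]
    simp, by
    rw [sub_mul, mul_sub, mul_sub, one_mul, one_mul, mul_one, smul_mul_smul_comm, (𝒜.pr p hp).2]
    have : (2 * 2 : ℂ) • p = (2 : ℂ) • p + (2 : ℂ) • p := by rw [← add_smul]; norm_num
    rw [this]; abel, fun q hq => by
    rw [sub_mul, mul_sub, one_mul, mul_one, smul_mul_assoc, mul_smul_comm, 𝒜.comm p hp q hq]⟩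

theorem eq_of_symOf {p : H →L[ℂ] H} (hp : p ∈ 𝒜.P) : p = (2 : ℂ)⁻¹ • (1 - (𝒜.symOf hp).1) := by
  rw [symOf]
  simp

/-- Operators commuting with the symmetries commute with the projections. -/
theorem comm_of_sym {x : H →L[ℂ] H} (h : ∀ s : 𝒜.Sym, x * s.1 = s.1 * x) {p : H →L[ℂ] H}
    (hp : p ∈ 𝒜.P) : x * p = p * x := by
  rw [𝒜.eq_of_symOf hp, mul_smul_comm, smul_mul_assoc, mul_sub, sub_mul, h, mul_one, one_mul]

/-- Symmetries commute with the projections of the family. -/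
theorem sym_comm_P (s : 𝒜.Sym) {p : H →L[ℂ] H} (hp : p ∈ 𝒜.P) : s.1 * p = p * s.1 :=
  s.2.2.2.2 p hp

end Masa

end U161.KK
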