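import Mathlib
import Pool.Agent.H759R2.Kad.Assemble7
import Pool.Agent.U161.KK.Comm
import Pool.Agent.U161.KK.Masa

set_option linter.unusedSectionVars false

/-!
Normal tracial states given by sequences of vectors; traces of projections lying in two close
II₁ factors agree.
-/

open scoped ComplexOrder InnerProductSpace ComplexConjugate Topology
open H759R2.Kad

noncomputable section

namespace U161.KK

universe u

variable {H : Type u} [NormedAddCommGroup H] [InnerProductSpace ℂ H] [CompleteSpace H]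

/-- The functional `x ↦ ∑ ⟪ξ n, x (ξ n)⟫`. -/
def tr (ξ : ℕ → H) (x : H →L[ℂ] H) : ℂ := ∑' n, ⟪ξ n, x (ξ n)⟫_ℂ

/-- `tr ξ` restricts to a faithful tracial state of `M`. -/
structure IsNT (M : VonNeumannAlgebra H) (ξ : ℕ → H) : Prop where
  sum : HasSum (fun n => ‖ξ n‖ ^ 2) 1
  comm : ∀ x ∈ M, ∀ y ∈ M, tr ξ (x * y) = tr ξ (y * x)
  faithful : ∀ x ∈ M, tr ξ (star x * x) = 0 → x = 0

section tr

variable {ξ : ℕ → H} (hs : Summable fun n => ‖ξ n‖ ^ 2)

include hs

theorem summable_tr (x : H →L[ℂ] H) : Summable fun n => ⟪ξ n, x (ξ n)⟫_ℂ := by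
  refine Summable.of_norm_bounded (hs.mul_left ‖x‖) fun n => ?_
  calc ‖⟪ξ n, x (ξ n)⟫_ℂ‖ ≤ ‖ξ n‖ * ‖x (ξ n)‖ := norm_inner_le_norm _ _
    _ ≤ ‖ξ n‖ * (‖x‖ * ‖ξ n‖) := by
        gcongr
        exact x.le_opNorm _
    _ = ‖x‖ * ‖ξ n‖ ^ 2 := by ring

theorem tr_add (x y : H →L[ℂ] H) : tr ξ (x + y) = tr ξ x + tr ξ y := by
  rw [tr, tr, tr, ← (summable_tr hs x).tsum_add (summable_tr hs y)]
  simp [inner_add_right]

theorem tr_smul (c : ℂ) (x : H →L[ℂ] H) : tr ξ (c • x) = c * tr ξ x := by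
  rw [tr, tr, ← tsum_mul_left]
  simp [inner_smul_right]

theorem tr_neg (x : H →L[ℂ] H) : tr ξ (-x) = - tr ξ x := by
  have := tr_smul hs (-1) x
  simpa using this

theorem tr_sub (x y : H →L[ℂ] H) : tr ξ (x - y) = tr ξ x - tr ξ y := by
  rw [sub_eq_add_neg, tr_add hs, tr_neg hs, sub_eq_add_neg]

theorem tr_zero : tr ξ (0 : H →L[ℂ] H) = 0 := by
  have := tr_smul hs 0 0
  simpa using this

theorem tr_sum {ι : Type*} (s : Finset ι) (f : ι → (H →L[ℂ] H)) :
    tr ξ (∑ i ∈ s, f i) = ∑ i ∈ s, tr ξ (f i) := by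
  classical
  induction s using Finset.induction_on with
  | empty => simpa using tr_zero hs
  | insert a s ha ih => rw [Finset.sum_insert ha, Finset.sum_insert ha, tr_add hs, ih]

theorem tr_star_mul (x : H →L[ℂ] H) : tr ξ (star x * x) = ((∑' n, ‖x (ξ n)‖ ^ 2 : ℝ) : ℂ) := by
  rw [tr, Complex.ofReal_tsum]
  congr 1
  funext n
  rw [mul_apply_eq_comp, ContinuousLinearMap.star_eq_adjoint,
    ContinuousLinearMap.adjoint_inner_right, inner_self_eq_norm_sq_to_K]
  push_cast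
  rfl

theorem tr_star_mul_nonneg (x : H →L[ℂ] H) : 0 ≤ (tr ξ (star x * x)).re := by
  rw [tr_star_mul hs, Complex.ofReal_re]
  exact tsum_nonneg fun n => sq_nonneg _

theorem tr_star_mul_im (x : H →L[ℂ] H) : (tr ξ (star x * x)).im = 0 := by
  rw [tr_star_mul hs, Complex.ofReal_im]

theorem tr_proj_nonneg {p : H →L[ℂ] H} (hp : IsPr p) : 0 ≤ (tr ξ p).re := by
  have := tr_star_mul_nonneg hs p
  rwa [hp.1, hp.2] at this

theorem tr_proj_im {p : H →L[ℂ] H} (hp : IsPr p) : (tr ξ p).im = 0 := by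
  have := tr_star_mul_im hs p
  rwa [hp.1, hp.2] at this

omit [CompleteSpace H] in
theorem norm_tr_le (x : H →L[ℂ] H) : ‖tr ξ x‖ ≤ ‖x‖ * ∑' n, ‖ξ n‖ ^ 2 := by
  rw [← tsum_mul_left]
  refine tsum_of_norm_bounded (hs.mul_left ‖x‖).hasSum fun n => ?_
  calc ‖⟪ξ n, x (ξ n)⟫_ℂ‖ ≤ ‖ξ n‖ * ‖x (ξ n)‖ := norm_inner_le_norm _ _
    _ ≤ ‖ξ n‖ * (‖x‖ * ‖ξ n‖) := by
        gcongr
        exact x.le_opNorm _
    _ = ‖x‖ * ‖ξ n‖ ^ 2 := by ring

/-- `tr ξ` as a continuous linear functional. -/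
def trL : (H →L[ℂ] H) →L[ℂ] ℂ :=
  LinearMap.mkContinuous
    { toFun := tr ξ
      map_add' := tr_add hs
      map_smul' := fun c x => by rw [tr_smul hs]; rfl } (∑' n, ‖ξ n‖ ^ 2)
    fun x => (norm_tr_le hs x).trans (le_of_eq (mul_comm _ _))

theorem trL_apply (x : H →L[ℂ] H) : trL hs x = tr ξ x := rfl

end tr

theorem isPr_sub {p q : H →L[ℂ] H} (hp : IsPr p) (hq : IsPr q) (h : q * p = p) : IsPr (q - p) := by
  have h' : p * q = p := by
    have := congrArg star h
    rwa [star_mul, hp.1, hq.1] at this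
  refine ⟨?_, ?_⟩
  · rw [star_sub, hp.1, hq.1]
  · rw [sub_mul, mul_sub, mul_sub, hq.2, h, h', hp.2]
    abel

theorem tr_mono {ξ : ℕ → H} (hs : Summable fun n => ‖ξ n‖ ^ 2) {p q : H →L[ℂ] H} (hp : IsPr p)
    (hq : IsPr q) (h : q * p = p) : (tr ξ p).re ≤ (tr ξ q).re := by
  have := tr_proj_nonneg hs (isPr_sub hp hq h)
  rw [tr_sub hs, Complex.sub_re] at this
  linarith

namespace IsNT

variable {M : VonNeumannAlgebra H} {ξ : ℕ → H} (h : IsNT M ξ)

include h

theorem summable : Summable fun n => ‖ξ n‖ ^ 2 := h.sum.summable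

theorem tr_one : tr ξ 1 = 1 := by
  have := tr_star_mul h.summable (1 : H →L[ℂ] H)
  rw [star_one, one_mul] at this
  rw [this]
  have e : ∑' n, ‖(1 : H →L[ℂ] H) (ξ n)‖ ^ 2 = 1 := h.sum.tsum_eq
  rw [e]
  simp

theorem norm_tr_le (x : H →L[ℂ] H) : ‖tr ξ x‖ ≤ ‖x‖ := by
  have := U161.KK.norm_tr_le h.summable x
  rwa [h.sum.tsum_eq, mul_one] at this

/-- A comparison of traces from an operator which is nearly a partial isometry. -/
theorem tr_le_of_near {e f z : H →L[ℂ] H} (he : IsPr e) (hf : f ∈ M)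
    (hf' : IsPr f) (hz : z ∈ M) (hez : e * z = z) (hzf : z * f = z)
    (hn : ‖star z * z - f‖ ≤ 1 / 2) : (tr ξ f).re ≤ (tr ξ e).re := by
  have hfz : f * star z = star z := by
    have := congrArg star hzf
    rwa [star_mul, hf'.1] at this
  obtain ⟨b, hb⟩ : ∃ b : H →L[ℂ] H, b = star z * z + (1 - f) := ⟨_, rfl⟩
  have hbs : star b = b := by
    rw [hb, star_add, star_mul, star_star, star_sub, star_one, hf'.1]
  have hb1 : ‖b - 1‖ ≤ 1 / 2 := by
    have : b - 1 = star z * z - f := by rw [hb]; abel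
    rw [this]; exact hn
  obtain ⟨c, c', hcs, hcc, hcc', hc'c, hc's, -, -, hcomm⟩ := exists_sqrt b hbs _ le_rfl hb1
  have hfb : f * b = b * f := by
    rw [hb, mul_add, add_mul, mul_sub, sub_mul, mul_one, one_mul, hf'.2, ← mul_assoc, hfz,
      mul_assoc, hzf]
  have hfc' := (hcomm f hfb).2
  have hbM : b ∈ M := by
    rw [hb]
    exact add_mem (mul_mem (star_mem hz) hz) (sub_mem (OneMemClass.one_mem M) hf)
  have hc'M : c' ∈ M := mem_of_comm M hbM fun t ht => (hcomm t ht).2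
  have hb2 : b * (1 - f) = 1 - f := by
    rw [hb, add_mul, mul_sub, mul_sub, mul_one, mul_one, mul_assoc, hzf, sub_mul, one_mul, hf'.2]
    abel
  have hc2 : c' * c' * (1 - f) = 1 - f := by
    calc c' * c' * (1 - f) = c' * c' * (b * (1 - f)) := by rw [hb2]
      _ = c' * (c' * c) * c * (1 - f) := by rw [← hcc]; simp only [mul_assoc]
      _ = 1 - f := by rw [hc'c, mul_one, hc'c, one_mul]
  have hcf : c' * (1 - f) = (1 - f) * c' := by
    rw [mul_sub, sub_mul, mul_one, one_mul, hfc']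
  have hu1 : star (z * c') * (z * c') = f := by
    rw [star_mul, hc's]
    calc c' * star z * (z * c') = c' * (b - (1 - f)) * c' := by
          rw [hb, add_sub_cancel_right]; simp only [mul_assoc]
      _ = c' * b * c' - c' * (1 - f) * c' := by rw [mul_sub, sub_mul]
      _ = (c' * c) * (c * c') - c' * (c' * (1 - f)) := by
          rw [← hcc, mul_assoc c' (1 - f), ← hcf]; simp only [mul_assoc]
      _ = f := by
          rw [hc'c, hcc', one_mul, ← mul_assoc, hc2]; abel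
  have huf : (z * c') * f = z * c' := by
    rw [mul_assoc, ← hfc', ← mul_assoc, hzf]
  have hu2 : IsPr ((z * c') * star (z * c')) := by
    refine ⟨by rw [star_mul, star_star], ?_⟩
    calc (z * c') * star (z * c') * ((z * c') * star (z * c')) =
        (z * c') * (star (z * c') * (z * c')) * star (z * c') := by simp only [mul_assoc]
      _ = (z * c') * star (z * c') := by rw [hu1, huf]
  have hcm := h.comm _ (star_mem (mul_mem hz hc'M)) _ (mul_mem hz hc'M)
  rw [hu1] at hcm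
  rw [hcm]
  refine tr_mono h.summable hu2 he ?_
  rw [← mul_assoc, ← mul_assoc, hez]

end IsNT

/-- Perturbation of comparison. -/
theorem tr_le_of_pert {N : VonNeumannAlgebra H} {ξ : ℕ → H} (h : IsNT N ξ) {κ : ℝ}
    (hκ : κ ≤ 1 / 30) {e0 f0 v e f w : H →L[ℂ] H} (he0 : IsPr e0) (hf0 : IsPr f0)
    (hv : star v * v = f0) (hev : e0 * v = v) (he : e ∈ N) (he' : IsPr e) (hf : f ∈ N)
    (hf' : IsPr f) (hw : w ∈ N) (h1 : ‖e - e0‖ ≤ κ) (h2 : ‖f - f0‖ ≤ κ) (h3 : ‖w - v‖ ≤ κ) :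
    (tr ξ f).re ≤ (tr ξ e).re := by
  have hκ0 : 0 ≤ κ := (norm_nonneg _).trans h1
  have hn : ∀ p : H →L[ℂ] H, IsPr p → ‖p‖ ≤ 1 := by
    intro p hp
    have h : ‖p‖ * ‖p‖ = ‖p‖ := by
      rw [← CStarRing.norm_star_mul_self, hp.1, hp.2]
    nlinarith [norm_nonneg p, sq_nonneg (‖p‖ - 1)]
  have hvn : ‖v‖ ≤ 1 := by
    have h : ‖v‖ * ‖v‖ = ‖f0‖ := by rw [← CStarRing.norm_star_mul_self, hv]
    have := hn f0 hf0
    nlinarith [norm_nonneg v, sq_nonneg (‖v‖ - 1)]
  have hwn : ‖w‖ ≤ 1 + κ := by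
    calc ‖w‖ = ‖(w - v) + v‖ := by rw [sub_add_cancel]
      _ ≤ ‖w - v‖ + ‖v‖ := norm_add_le _ _
      _ ≤ 1 + κ := by linarith
  have hvf : v * f0 = v := by
    have : star (v * (1 - f0)) * (v * (1 - f0)) = 0 := by
      rw [star_mul, star_sub, star_one, hf0.1]
      calc (1 - f0) * star v * (v * (1 - f0)) = (1 - f0) * (star v * v) * (1 - f0) := by
            simp only [mul_assoc]
        _ = 0 := by
            rw [hv, sub_mul, one_mul, hf0.2, sub_self, zero_mul]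
    have h0 := (CStarRing.star_mul_self_eq_zero_iff (v * (1 - f0))).1 this
    rw [mul_sub, mul_one, sub_eq_zero] at h0
    exact h0.symm
  obtain ⟨z, hz⟩ : ∃ z : H →L[ℂ] H, z = e * w * f := ⟨_, rfl⟩
  have hzv : ‖z - v‖ ≤ 4 * κ := by
    have e1 : z - v = (e - e0) * w * f + e0 * (w - v) * f + v * (f - f0) := by
      rw [hz]
      have : e0 * (w - v) * f = e0 * w * f - v * f := by rw [mul_sub, hev, sub_mul]
      rw [this, mul_sub, hvf, sub_mul, sub_mul]
      abel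
    rw [e1]
    have b1 : ‖(e - e0) * w * f‖ ≤ κ * (1 + κ) * 1 := by
      refine (norm_mul_le _ _).trans (mul_le_mul ?_ (hn f hf') (norm_nonneg _) (by positivity))
      exact (norm_mul_le _ _).trans (mul_le_mul h1 hwn (norm_nonneg _) hκ0)
    have b2 : ‖e0 * (w - v) * f‖ ≤ 1 * κ * 1 := by
      refine (norm_mul_le _ _).trans (mul_le_mul ?_ (hn f hf') (norm_nonneg _) (by positivity))
      exact (norm_mul_le _ _).trans (mul_le_mul (hn e0 he0) h3 (norm_nonneg _) zero_le_one)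
    have b3 : ‖v * (f - f0)‖ ≤ 1 * κ :=
      (norm_mul_le _ _).trans (mul_le_mul hvn h2 (norm_nonneg _) zero_le_one)
    have := norm_add₃_le (a := (e - e0) * w * f) (b := e0 * (w - v) * f) (c := v * (f - f0))
    nlinarith
  have hzn : ‖z‖ ≤ 1 + 4 * κ := by
    calc ‖z‖ = ‖(z - v) + v‖ := by rw [sub_add_cancel]
      _ ≤ ‖z - v‖ + ‖v‖ := norm_add_le _ _
      _ ≤ 1 + 4 * κ := by linarith
  refine h.tr_le_of_near (z := z) he' hf hf' ?_ ?_ ?_ ?_
  · rw [hz]; exact mul_mem (mul_mem he hw) hf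
  · rw [hz, ← mul_assoc, ← mul_assoc, he'.2]
  · rw [hz, mul_assoc, hf'.2]
  · have e1 : star z * z - f = star (z - v) * z + star v * (z - v) - (f - f0) := by
      rw [← hv, star_sub]; noncomm_ring
    rw [e1]
    have b1 : ‖star (z - v) * z‖ ≤ (4 * κ) * (1 + 4 * κ) := by
      refine (norm_mul_le _ _).trans ?_
      rw [norm_star]
      exact mul_le_mul hzv hzn (norm_nonneg _) (by positivity)
    have b2 : ‖star v * (z - v)‖ ≤ 1 * (4 * κ) := by
      refine (norm_mul_le _ _).trans ?_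
      rw [norm_star]
      exact mul_le_mul hvn hzv (norm_nonneg _) zero_le_one
    have b3 := norm_sub_le (star (z - v) * z + star v * (z - v)) (f - f0)
    have b4 := norm_add_le (star (z - v) * z) (star v * (z - v))
    nlinarith

end U161.KK
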