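import Mathlib
import Pool.Agent.U161.KK.Trace

set_option linter.unusedSectionVars false

/-!
Traces of projections lying in two close II₁ factors agree.
-/

open scoped ComplexOrder InnerProductSpace ComplexConjugate Topology
open H759R2.Kad

noncomputable section

namespace U161.KK

universe u

variable {H : Type u} [NormedAddCommGroup H] [InnerProductSpace ℂ H] [CompleteSpace H]

theorem fac_comp : F_comp.{u} := prove5_comp prove5_join prove5_polar prove5_chain

theorem fac_pow : F_pow.{u} :=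
  prove5_pow' (prove5_two (prove5_half prove5_chain fac_comp (prove5_nomin prove5_range fac_comp)))

/-- Matrix units of size `2 ^ k`. -/
theorem exists_units (M : VonNeumannAlgebra H) (τ : M.toStarSubalgebra →ₗ[ℂ] ℂ) (hM : IsII1 M τ)
    (k : ℕ) : ∃ E : Fin (2 ^ k) → Fin (2 ^ k) → (H →L[ℂ] H), (∀ i j, E i j ∈ M) ∧
      (∀ i j, star (E i j) = E j i) ∧
      (∀ i j a b, E i j * E a b = if j = a then E i b else 0) ∧ ∑ i, E i i = 1 := by
  obtain ⟨N, τ', -, ⟨Φ⟩⟩ := fac_pow H M τ hM k
  let S : Fin (2 ^ k) → Fin (2 ^ k) →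
      CStarMatrix (Fin (2 ^ k)) (Fin (2 ^ k)) N.toStarSubalgebra :=
    fun i j => CStarMatrix.ofMatrix (Matrix.single i j 1)
  have hS : ∀ i j a b, S i j a b = if i = a ∧ j = b then 1 else 0 := by
    intro i j a b
    change Matrix.single i j (1 : N.toStarSubalgebra) a b = _
    rw [Matrix.single_apply]
  have hS1 : ∀ i j, star (S i j) = S j i := by
    intro i j
    ext a b : 2
    rw [CStarMatrix.star_apply, hS, hS]
    by_cases h : i = b ∧ j = a
    · rw [if_pos h, if_pos h.symm, star_one]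
    · rw [if_neg h, if_neg (fun h' => h h'.symm), star_zero]
  have hS2 : ∀ i j a b, S i j * S a b = if j = a then S i b else 0 := by
    intro i j a b
    change CStarMatrix.ofMatrix (Matrix.single i j (1 : N.toStarSubalgebra)) *
      CStarMatrix.ofMatrix (Matrix.single a b 1) = _
    by_cases h : j = a
    · subst h
      rw [if_pos rfl]
      change CStarMatrix.ofMatrix (Matrix.single i j (1 : N.toStarSubalgebra) *
        Matrix.single j b 1) = _
      rw [Matrix.single_mul_single_same, mul_one]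
    · rw [if_neg h]
      change CStarMatrix.ofMatrix (Matrix.single i j (1 : N.toStarSubalgebra) *
        Matrix.single a b 1) = _
      rw [Matrix.single_mul_single_of_ne _ _ _ _ h]
      rfl
  have hS3 : ∑ i, S i i = 1 := by
    ext a b : 2
    rw [CStarMatrix.one_apply]
    have : (∑ i, S i i) a b = ∑ i, S i i a b := by
      induction (Finset.univ : Finset (Fin (2 ^ k))) using Finset.induction_on with
      | empty => rfl
      | insert i s hi ih => rw [Finset.sum_insert hi, Finset.sum_insert hi, ← ih]; rfl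
    rw [this]
    rw [Finset.sum_congr rfl fun i _ => hS i i a b]
    by_cases h : a = b
    · subst h
      rw [if_pos rfl, Finset.sum_eq_single a]
      · rw [if_pos ⟨rfl, rfl⟩]
      · intro i _ hi
        rw [if_neg fun h => hi h.1]
      · intro hh
        exact absurd (Finset.mem_univ a) hh
    · rw [if_neg h]
      congr 1
      apply Finset.sum_eq_zero
      intro i _
      rw [if_neg fun h' => h (h'.1.symm.trans h'.2)]
  refine ⟨fun i j => (Φ.symm (S i j) : M.toStarSubalgebra), fun i j => (Φ.symm (S i j)).2,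
    fun i j => ?_, fun i j a b => ?_, ?_⟩
  · have := congrArg (fun x : M.toStarSubalgebra => (x : H →L[ℂ] H))
      ((map_star Φ.symm (S i j)).symm.trans (congrArg Φ.symm (hS1 i j)))
    exact this
  · have := congrArg (fun x : M.toStarSubalgebra => (x : H →L[ℂ] H))
      ((map_mul Φ.symm (S i j) (S a b)).symm.trans (congrArg Φ.symm (hS2 i j a b)))
    refine this.trans ?_
    split_ifs
    · rfl
    · rw [map_zero]; rfl
  · have h1 : ∑ i, (Φ.symm (S i i) : M.toStarSubalgebra) = 1 := by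
      rw [← map_sum, hS3, map_one]
    have := congrArg (fun x : M.toStarSubalgebra => (x : H →L[ℂ] H)) h1
    simpa using this

theorem norm_conj_sub {u x : H →L[ℂ] H} (hu : u * star u = 1) (hun : ‖u‖ ≤ 1)
    (hx : ‖x‖ ≤ 1) {κ : ℝ} (h : ‖u - 1‖ ≤ κ) : ‖u * x * star u - x‖ ≤ 2 * κ := by
  have hκ0 : 0 ≤ κ := (norm_nonneg _).trans h
  have e : u * x * star u - x = ((u - 1) * x - x * (u - 1)) * star u := by
    have : ((u - 1) * x - x * (u - 1)) * star u = u * x * star u - x * (u * star u) := by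
      noncomm_ring
    rw [this, hu, mul_one]
  rw [e]
  have b1 : ‖(u - 1) * x - x * (u - 1)‖ ≤ 2 * κ := by
    have a1 : ‖(u - 1) * x‖ ≤ κ * 1 :=
      (norm_mul_le _ _).trans (mul_le_mul h hx (norm_nonneg _) hκ0)
    have a2 : ‖x * (u - 1)‖ ≤ 1 * κ :=
      (norm_mul_le _ _).trans (mul_le_mul hx h (norm_nonneg _) zero_le_one)
    have := norm_sub_le ((u - 1) * x) (x * (u - 1))
    linarith
  calc ‖((u - 1) * x - x * (u - 1)) * star u‖ ≤ ‖(u - 1) * x - x * (u - 1)‖ * ‖star u‖ :=
        norm_mul_le _ _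
    _ ≤ (2 * κ) * 1 := by
        rw [norm_star]
        exact mul_le_mul b1 hun (norm_nonneg _) (by positivity)
    _ = 2 * κ := mul_one _

theorem unitary_norm_le {u : H →L[ℂ] H} (hu : star u * u = 1) : ‖u‖ ≤ 1 := by
  have h : ‖u‖ * ‖u‖ ≤ 1 := by
    rw [← CStarRing.norm_star_mul_self, hu]
    exact norm_one_le
  nlinarith [norm_nonneg u]

theorem isPr_conj {u p : H →L[ℂ] H} (hu : star u * u = 1) (hp : IsPr p) :
    IsPr (u * p * star u) := by
  refine ⟨by rw [star_mul, star_mul, star_star, hp.1, mul_assoc], ?_⟩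
  calc u * p * star u * (u * p * star u) = u * (p * (star u * u) * p) * star u := by
        simp only [mul_assoc]
    _ = u * p * star u := by rw [hu, mul_one, hp.2]

theorem isPr_norm_le {p : H →L[ℂ] H} (hp : IsPr p) : ‖p‖ ≤ 1 := by
  have h : ‖p‖ * ‖p‖ = ‖p‖ := by
    rw [← CStarRing.norm_star_mul_self, hp.1, hp.2]
  nlinarith [norm_nonneg p, sq_nonneg (‖p‖ - 1)]

/-- Moving a maximal commuting family of projections of `M` into a nearby algebra `N`. -/
theorem masa_move {M N : VonNeumannAlgebra H} (𝒜 : Masa M) {γ : ℝ} (hγ0 : 0 ≤ γ)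
    (hγ : γ ≤ 1 / 2550) (hnear : Near M N γ) :
    ∃ u : H →L[ℂ] H, star u * u = 1 ∧ u * star u = 1 ∧ ‖u - 1‖ ≤ 2975 * γ ∧
      ∀ p ∈ 𝒜.P, u * p * star u ∈ N := by
  obtain ⟨u, h1, h2, h3, h4, -⟩ := stab (G := 𝒜.Sym) (π := fun s => s.1) 𝒜.sym_sq
    (fun s => s.2.2.1) rfl (fun _ _ => rfl) N hγ0 hγ (fun s => by
      obtain ⟨y, hy, hy'⟩ := hnear s.1 s.2.1
      refine ⟨y, hy, hy'.trans ?_⟩
      have : ‖s.1‖ ≤ 1 := unitary_norm_le (by rw [s.2.2.1, s.2.2.2.1])
      nlinarith)
  refine ⟨u, h1, h2, h3, fun p hp => ?_⟩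
  rw [𝒜.eq_of_symOf hp]
  have : u * ((2 : ℂ)⁻¹ • (1 - (𝒜.symOf hp).1)) * star u =
      (2 : ℂ)⁻¹ • (1 - u * (𝒜.symOf hp).1 * star u) := by
    rw [mul_smul_comm, smul_mul_assoc, mul_sub, sub_mul, mul_one, h2]
  rw [this]
  exact SMulMemClass.smul_mem (S := StarSubalgebra ℂ (H →L[ℂ] H)) (s := N.toStarSubalgebra) _
      (sub_mem (OneMemClass.one_mem N) (h4 (𝒜.symOf hp)))

theorem tr_agree_le {M N : VonNeumannAlgebra H} {ξ ξ' : ℕ → H} (τ : M.toStarSubalgebra →ₗ[ℂ] ℂ)
    (hII : IsII1 M τ) (hM : IsNT M ξ) (hN : IsNT N ξ') {γ : ℝ} (hγ0 : 0 ≤ γ) (hγ : γ ≤ 1 / 1000000)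
    (hnear : Near M N γ) {p : H →L[ℂ] H} (hp : IsPr p) (hpM : p ∈ M) (hpN : p ∈ N) :
    (tr ξ p).re ≤ (tr ξ' p).re := by
  -- it suffices to be within `2 ^ (-k)`
  suffices hk : ∀ k : ℕ, (tr ξ p).re ≤ (tr ξ' p).re + (1 / 2) ^ k by
    have h1 : Filter.Tendsto (fun k : ℕ => (tr ξ' p).re + ((1 : ℝ) / 2) ^ k) Filter.atTop
        (𝓝 ((tr ξ' p).re + 0)) :=
      (tendsto_pow_atTop_nhds_zero_of_lt_one (by norm_num) (by norm_num)).const_add _
    rw [add_zero] at h1
    exact ge_of_tendsto' h1 hk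
  intro k
  obtain ⟨n, hn⟩ : ∃ n : ℕ, n = 2 ^ k := ⟨_, rfl⟩
  have hU := exists_units M τ hII k
  rw [← hn] at hU
  obtain ⟨E, hEM, hEs, hEE, hE1⟩ := hU
  have hn0 : (0 : ℝ) < n := by rw [hn]; positivity
  have hEpr : ∀ i, IsPr (E i i) := fun i => ⟨hEs i i, by rw [hEE, if_pos rfl]⟩
  have hEtr : ∀ i j, tr ξ (E i i) = tr ξ (E j j) := by
    intro i j
    have := hM.comm (E i j) (hEM i j) (E j i) (hEM j i)
    rwa [hEE, if_pos rfl, hEE, if_pos rfl] at this
  have hEtr1 : ∀ i, (tr ξ (E i i)).re = 1 / n := by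
    intro i
    have h1 : ∑ j, tr ξ (E j j) = 1 := by
      rw [← tr_sum hM.summable, hE1, hM.tr_one]
    have h2 : ∑ j : Fin n, tr ξ (E j j) = n * tr ξ (E i i) := by
      rw [Finset.sum_congr rfl fun j _ => hEtr j i, Finset.sum_const, Finset.card_univ,
        Fintype.card_fin, nsmul_eq_mul]
    rw [h2] at h1
    have h3 : tr ξ (E i i) = ((1 / n : ℝ) : ℂ) := by
      have hn' : (n : ℂ) ≠ 0 := by exact_mod_cast hn0.ne'
      push_cast
      rw [eq_div_iff hn', mul_comm]
      exact h1
    rw [h3, Complex.ofReal_re]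
  -- move the diagonal projections into `N`
  obtain ⟨𝒜, h𝒜⟩ := exists_masa M (Set.range fun i => E i i)
    (by rintro _ ⟨i, rfl⟩; exact hEM i i) (by rintro _ ⟨i, rfl⟩; exact hEpr i) (by
      rintro _ ⟨i, rfl⟩ _ ⟨j, rfl⟩
      simp only [hEE]
      by_cases h : i = j
      · subst h; rfl
      · rw [if_neg h, if_neg (Ne.symm h)])
  obtain ⟨u, hu1, hu2, hu3, hu4⟩ := masa_move 𝒜 hγ0 (by linarith) hnear
  have hun : ‖u‖ ≤ 1 := unitary_norm_le hu1
  have hfN : ∀ i, u * E i i * star u ∈ N := fun i => hu4 _ (h𝒜 ⟨i, rfl⟩)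
  have hfpr : ∀ i, IsPr (u * E i i * star u) := fun i => isPr_conj hu1 (hEpr i)
  have hκ : 2 * (2975 * γ) ≤ 1 / 30 := by linarith
  have hfle : ∀ i j, (tr ξ' (u * E i i * star u)).re ≤ (tr ξ' (u * E j j * star u)).re := by
    intro i j
    obtain ⟨w, hwN, hw⟩ := hnear (E j i) (hEM j i)
    have hEn : ‖E j i‖ ≤ 1 := by
      have h : ‖E j i‖ * ‖E j i‖ ≤ 1 := by
        rw [← CStarRing.norm_star_mul_self, hEs, hEE, if_pos rfl]
        exact isPr_norm_le (hEpr i)
      nlinarith [norm_nonneg (E j i)]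
    refine tr_le_of_pert hN hκ (e0 := E j j) (f0 := E i i) (v := E j i) (w := w) (hEpr j) (hEpr i)
      ?_ ?_ (hfN j) (hfpr j) (hfN i) (hfpr i) hwN
      (norm_conj_sub hu2 hun (isPr_norm_le (hEpr j)) hu3)
      (norm_conj_sub hu2 hun (isPr_norm_le (hEpr i)) hu3) ?_
    · rw [hEs, hEE, if_pos rfl]
    · rw [hEE, if_pos rfl]
    · rw [norm_sub_rev]
      refine hw.trans ?_
      nlinarith [norm_nonneg (E j i)]
  have hftr : ∀ i, (tr ξ' (u * E i i * star u)).re = 1 / n := by
    intro i
    have h1 : ∑ j, (tr ξ' (u * E j j * star u)).re = 1 := by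
      rw [← Complex.re_sum, ← tr_sum hN.summable, ← Finset.sum_mul, ← Finset.mul_sum, hE1, mul_one,
        hu2, hN.tr_one, Complex.one_re]
    have h2 : ∑ j : Fin n, (tr ξ' (u * E j j * star u)).re =
        n * (tr ξ' (u * E i i * star u)).re := by
      rw [Finset.sum_congr rfl fun j _ => le_antisymm (hfle j i) (hfle i j), Finset.sum_const,
        Finset.card_univ, Fintype.card_fin, nsmul_eq_mul]
    rw [h2] at h1
    rw [eq_div_iff hn0.ne', mul_comm]
    exact h1
  -- the number of pieces below `p`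
  set t := (tr ξ p).re with ht
  have ht0 : 0 ≤ t := tr_proj_nonneg hM.summable hp
  have ht1 : t ≤ 1 := by
    have h1 : IsPr (1 : H →L[ℂ] H) := ⟨star_one _, one_mul _⟩
    have := tr_mono hM.summable hp h1 (one_mul _)
    rwa [hM.tr_one, Complex.one_re] at this
  obtain ⟨j, hj⟩ : ∃ j : ℕ, j = ⌊(n : ℝ) * t⌋₊ := ⟨_, rfl⟩
  have hj1 : (j : ℝ) ≤ n * t := by rw [hj]; exact Nat.floor_le (by positivity)
  have hj2 : (n : ℝ) * t < j + 1 := by rw [hj]; exact Nat.lt_floor_add_one _
  have hjn : j ≤ n := by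
    have : (j : ℝ) ≤ n := by nlinarith
    exact_mod_cast this
  set J : Finset (Fin n) := Finset.univ.filter fun i => i.1 < j with hJ
  have hJc : J.card = j := by
    rw [hJ, Fin.card_filter_val_lt, min_eq_right hjn]
  obtain ⟨f, hf⟩ : ∃ f : H →L[ℂ] H, f = ∑ i ∈ J, E i i := ⟨_, rfl⟩
  have hfM : f ∈ M := by rw [hf]; exact sum_mem fun i _ => hEM i i
  have hfpr0 : IsPr f := by
    refine ⟨?_, ?_⟩
    · rw [hf, star_sum]
      exact Finset.sum_congr rfl fun i _ => hEs i i
    · rw [hf, Finset.sum_mul_sum]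
      refine Finset.sum_congr rfl fun i hi => ?_
      rw [Finset.sum_eq_single i]
      · rw [hEE, if_pos rfl]
      · intro l _ hl
        rw [hEE, if_neg hl.symm]
      · intro h; exact absurd hi h
  have hftr0 : (tr ξ f).re = j / n := by
    rw [hf, tr_sum hM.summable, Complex.re_sum, Finset.sum_congr rfl fun i _ => hEtr1 i,
      Finset.sum_const, hJc, nsmul_eq_mul]
    ring
  have hfle0 : (tr ξ f).re ≤ t := by
    rw [hftr0, div_le_iff₀ hn0, mul_comm]
    exact hj1
  -- comparison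
  have hv : ∃ v ∈ M, star v * v = f ∧ p * v = v := by
    obtain ⟨v, hvM, ⟨h1, h2⟩ | ⟨h1, h2⟩⟩ := fac_comp H M hII.center f hfM p hpM hfpr0 hp
    · exact ⟨v, hvM, h1, h2⟩
    · have hg1 : (star v * v) * f = star v * v := by rw [mul_assoc, h2]
      have hgp : IsPr (star v * v) := by
        refine ⟨by rw [star_mul, star_star], ?_⟩
        have hpv : p * v = v := by
          have : star (v - p * v) * (v - p * v) = 0 := by
            have e1 : star v * p * v = star v * v * (star v * v) := by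
              rw [← h1]; simp only [mul_assoc]
            have e2 : (v - p * v) * star (v - p * v) = 0 := by
              rw [star_sub, star_mul, hp.1, mul_sub, sub_mul, sub_mul, h1]
              have a1 : p * v * star v = p * p := by rw [mul_assoc, h1]
              have a2 : v * (star v * p) = p * p := by rw [← mul_assoc, h1]
              have a3 : p * v * (star v * p) = p * p * p := by
                rw [mul_assoc, a2, mul_assoc]
              rw [a1, a2, a3, hp.2, hp.2]
              abel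
            have e3 := (CStarRing.mul_star_self_eq_zero_iff (v - p * v)).1 e2
            rw [e3, mul_zero]
          have h0 := (CStarRing.star_mul_self_eq_zero_iff (v - p * v)).1 this
          exact (sub_eq_zero.1 h0).symm
        calc star v * v * (star v * v) = star v * (v * star v) * v := by simp only [mul_assoc]
          _ = star v * v := by rw [h1, mul_assoc, hpv]
      have hgM : star v * v ∈ M := mul_mem (star_mem hvM) hvM
      have hg1' : f * (star v * v) = star v * v := by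
        have := congrArg star hg1
        rwa [star_mul, hfpr0.1, star_mul, star_star] at this
      have hd : IsPr (f - star v * v) := isPr_sub hgp hfpr0 hg1'
      have htr : (tr ξ (f - star v * v)).re ≤ 0 := by
        rw [tr_sub hM.summable, Complex.sub_re, hM.comm _ (star_mem hvM) _ hvM, h1]
        linarith
      have htr0 : tr ξ (star (f - star v * v) * (f - star v * v)) = 0 := by
        rw [hd.1, hd.2]
        refine Complex.ext ?_ (tr_proj_im hM.summable hd)
        exact le_antisymm htr (tr_proj_nonneg hM.summable hd)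
      have h0 := hM.faithful _ (sub_mem hfM hgM) htr0
      have h0' : star v * v = f := (sub_eq_zero.1 h0).symm
      refine ⟨v, hvM, h0', ?_⟩
      rw [← h1, mul_assoc, h0', h2]
  obtain ⟨v, hvM, hv1, hv2⟩ := hv
  have hvn : ‖v‖ ≤ 1 := by
    have h : ‖v‖ * ‖v‖ ≤ 1 := by
      rw [← CStarRing.norm_star_mul_self, hv1]
      exact isPr_norm_le hfpr0
    nlinarith [norm_nonneg v]
  obtain ⟨w, hwN, hw⟩ := hnear v hvM
  have hfin := tr_le_of_pert hN hκ (e0 := p) (f0 := f) (v := v) (e := p)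
    (f := u * f * star u) (w := w) hp hfpr0 hv1 hv2 hpN hp (by
      rw [hf, Finset.mul_sum, Finset.sum_mul]
      exact sum_mem fun i _ => hfN i) (isPr_conj hu1 hfpr0) hwN (by
      rw [sub_self, norm_zero]; positivity)
    (norm_conj_sub hu2 hun (isPr_norm_le hfpr0) hu3) (by
      rw [norm_sub_rev]
      refine hw.trans ?_
      nlinarith [norm_nonneg v])
  have hftr' : (tr ξ' (u * f * star u)).re = j / n := by
    rw [hf, Finset.mul_sum, Finset.sum_mul, tr_sum hN.summable, Complex.re_sum,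
      Finset.sum_congr rfl fun i _ => hftr i, Finset.sum_const, hJc, nsmul_eq_mul]
    ring
  rw [hftr'] at hfin
  have hpow : ((1 : ℝ) / 2) ^ k = 1 / n := by
    rw [hn, one_div_pow]
    push_cast
    rfl
  rw [hpow]
  have : t < (j + 1) / n := by
    rw [lt_div_iff₀ hn0, mul_comm]
    exact hj2
  rw [add_div] at this
  linarith

/-- Traces of projections common to two close II₁ factors agree. -/
theorem tr_agree {M N : VonNeumannAlgebra H} {ξ ξ' : ℕ → H} (τ : M.toStarSubalgebra →ₗ[ℂ] ℂ)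
    (hII : IsII1 M τ) (hM : IsNT M ξ) (hN : IsNT N ξ') {γ : ℝ} (hγ0 : 0 ≤ γ) (hγ : γ ≤ 1 / 1000000)
    (hnear : Near M N γ) {p : H →L[ℂ] H} (hp : IsPr p) (hpM : p ∈ M) (hpN : p ∈ N) :
    tr ξ p = tr ξ' p := by
  have h1 := tr_agree_le τ hII hM hN hγ0 hγ hnear hp hpM hpN
  have hq : IsPr (1 - p) := isPr_sub hp ⟨star_one _, one_mul _⟩ (one_mul _)
  have h2 := tr_agree_le τ hII hM hN hγ0 hγ hnear hq (sub_mem (OneMemClass.one_mem M) hpM)
    (sub_mem (OneMemClass.one_mem N) hpN)
  rw [tr_sub hM.summable, tr_sub hN.summable, hM.tr_one, hN.tr_one, Complex.sub_re,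
    Complex.sub_re] at h2
  refine Complex.ext (by linarith) ?_
  rw [tr_proj_im hM.summable hp, tr_proj_im hN.summable hp]

end U161.KK
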