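import Mathlib
import Pool.Agent.U161.KK.Trace2

set_option linter.unusedSectionVars false

/-!
The right action of the symmetries of a maximal commuting family on a module which is an orthogonal
sum of corners of the standard module.
-/

open scoped ComplexOrder InnerProductSpace ComplexConjugate Topology
open H759R2.Kad

noncomputable section

namespace U161.KK

universe u

variable {H : Type u} [NormedAddCommGroup H] [InnerProductSpace ℂ H] [CompleteSpace H]

section right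

variable {M : VonNeumannAlgebra H} {ξ : ℕ → H} {ι : Type} [Fintype ι] [DecidableEq ι]
  (ζ : ι → H) (p : ι → (H →L[ℂ] H))

/-- `x ↦ ∑ x i (ζ i)`. -/
def rf (M : VonNeumannAlgebra H) (ζ : ι → H) : (ι → M.toStarSubalgebra) →ₗ[ℂ] H where
  toFun x := ∑ i, (x i : H →L[ℂ] H) (ζ i)
  map_add' x y := by
    rw [← Finset.sum_add_distrib]
    rfl
  map_smul' c x := by
    rw [Finset.smul_sum]
    rfl

theorem rf_apply (x : ι → M.toStarSubalgebra) : rf M ζ x = ∑ i, (x i : H →L[ℂ] H) (ζ i) := rfl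

/-- Right multiplication. -/
def rm (M : VonNeumannAlgebra H) (ι : Type) (s : M.toStarSubalgebra) :
    (ι → M.toStarSubalgebra) →ₗ[ℂ] (ι → M.toStarSubalgebra) where
  toFun x := fun i => x i * s
  map_add' x y := by
    funext i
    exact add_mul _ _ _
  map_smul' c x := by
    funext i
    exact smul_mul_assoc c (x i) s

theorem rm_apply (s : M.toStarSubalgebra) (x : ι → M.toStarSubalgebra) (i : ι) :
    rm M ι s x i = x i * s := rfl

variable {ζ p}

theorem inner_rf (hζ : ∀ i j, ∀ x ∈ M, ⟪ζ i, x (ζ j)⟫_ℂ = if i = j then tr ξ (x * p i) else 0)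
    (x y : ι → M.toStarSubalgebra) :
    ⟪rf M ζ x, rf M ζ y⟫_ℂ = ∑ i, tr ξ (star (x i : H →L[ℂ] H) * (y i : H →L[ℂ] H) * p i) := by
  rw [rf_apply, rf_apply, sum_inner]
  refine Finset.sum_congr rfl fun i _ => ?_
  rw [inner_sum, Finset.sum_eq_single i]
  · have := hζ i i (star (x i : H →L[ℂ] H) * (y i : H →L[ℂ] H))
      (mul_mem (star_mem (x i).2) (y i).2)
    rw [if_pos rfl] at this
    rw [← this, mul_apply_eq_comp, ContinuousLinearMap.star_eq_adjoint,
      ContinuousLinearMap.adjoint_inner_right]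
  · intro j _ hj
    have := hζ i j (star (x i : H →L[ℂ] H) * (y j : H →L[ℂ] H))
      (mul_mem (star_mem (x i).2) (y j).2)
    rw [if_neg hj.symm] at this
    rw [← this, mul_apply_eq_comp, ContinuousLinearMap.star_eq_adjoint,
      ContinuousLinearMap.adjoint_inner_right]
  · intro h
    exact absurd (Finset.mem_univ i) h

theorem inner_rm (hM : IsNT M ξ) (hpM : ∀ i, p i ∈ M)
    (hζ : ∀ i j, ∀ x ∈ M, ⟪ζ i, x (ζ j)⟫_ℂ = if i = j then tr ξ (x * p i) else 0)
    (s : M.toStarSubalgebra) (hs : star (s : H →L[ℂ] H) = s)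
    (hsp : ∀ i, (s : H →L[ℂ] H) * p i = p i * s) (x y : ι → M.toStarSubalgebra) :
    ⟪rf M ζ (rm M ι s x), rf M ζ y⟫_ℂ = ⟪rf M ζ x, rf M ζ (rm M ι s y)⟫_ℂ := by
  rw [inner_rf hζ, inner_rf hζ]
  refine Finset.sum_congr rfl fun i _ => ?_
  rw [rm_apply, rm_apply]
  change tr ξ (star ((x i : H →L[ℂ] H) * s) * (y i : H →L[ℂ] H) * p i) =
    tr ξ (star (x i : H →L[ℂ] H) * ((y i : H →L[ℂ] H) * s) * p i)
  rw [star_mul, hs]
  have := hM.comm (s : H →L[ℂ] H) s.2 (star (x i : H →L[ℂ] H) * (y i : H →L[ℂ] H) * p i)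
    (mul_mem (mul_mem (star_mem (x i).2) (y i).2) (hpM i))
  have e1 : (s : H →L[ℂ] H) * star (x i : H →L[ℂ] H) * (y i : H →L[ℂ] H) * p i =
      (s : H →L[ℂ] H) * (star (x i : H →L[ℂ] H) * (y i : H →L[ℂ] H) * p i) := by
    simp only [mul_assoc]
  have e2 : star (x i : H →L[ℂ] H) * ((y i : H →L[ℂ] H) * s) * p i =
      star (x i : H →L[ℂ] H) * (y i : H →L[ℂ] H) * p i * s := by
    rw [mul_assoc _ (p i), ← hsp i]
    simp only [mul_assoc]
  rw [e1, e2, this]

theorem exists_right (hM : IsNT M ξ) (𝒜 : Masa M) (hpP : ∀ i, p i ∈ 𝒜.P)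
    (hζ : ∀ i j, ∀ x ∈ M, ⟪ζ i, x (ζ j)⟫_ℂ = if i = j then tr ξ (x * p i) else 0) :
    ∃ π : 𝒜.Sym → (H →L[ℂ] H), (∀ s, star (π s) = π s) ∧ π 1 = 1 ∧
      (∀ s t, π (s * t) = π s * π t) ∧ (∀ s, ∀ x ∈ M, π s * x = x * π s) ∧
      ∀ s i, π s (ζ i) = s.1 (ζ i) := by
  classical
  set R := LinearMap.range (rf M ζ) with hR
  -- the dense map
  let e : ((ι → M.toStarSubalgebra) × Rᗮ) →ₗ[ℂ] H :=
    (rf M ζ).coprod (Rᗮ).subtype
  have he : ∀ x (η : Rᗮ), e (x, η) = rf M ζ x + η := fun x η => rfl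
  have hdense : DenseRange e := by
    have h1 : (LinearMap.range e).topologicalClosure = ⊤ := by
      rw [Submodule.topologicalClosure_eq_top_iff, Submodule.eq_bot_iff]
      intro v hv
      rw [Submodule.mem_orthogonal] at hv
      have hv1 : v ∈ Rᗮ := by
        rw [Submodule.mem_orthogonal]
        rintro _ ⟨x, rfl⟩
        refine hv _ ⟨(x, 0), ?_⟩
        rw [he]
        simp
      have := hv v ⟨(0, ⟨v, hv1⟩), by rw [he]; simp⟩
      exact inner_self_eq_zero.1 this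
    have h2 := Submodule.dense_iff_topologicalClosure_eq_top.2 h1
    exact h2
  -- right multiplication on the dense subspace
  let g : M.toStarSubalgebra → ((ι → M.toStarSubalgebra) × Rᗮ) →ₗ[ℂ] H := fun s =>
    (rf M ζ ∘ₗ rm M ι s).coprod (Rᗮ).subtype
  have hg : ∀ s x (η : Rᗮ), g s (x, η) = rf M ζ (rm M ι s x) + η := fun s x η => rfl
  have horth : ∀ x (η : Rᗮ), ⟪rf M ζ x, (η : H)⟫_ℂ = 0 := fun x η =>
    (Submodule.mem_orthogonal R _).1 η.2 _ ⟨x, rfl⟩
  have horth' : ∀ x (η : Rᗮ), ⟪(η : H), rf M ζ x⟫_ℂ = 0 := fun x η => by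
    rw [← inner_conj_symm, horth, map_zero]
  let S : 𝒜.Sym → M.toStarSubalgebra := fun s => ⟨s.1, s.2.1⟩
  have hSs : ∀ s : 𝒜.Sym, star ((S s : M.toStarSubalgebra) : H →L[ℂ] H) = S s :=
    fun s => s.2.2.1
  have hSp : ∀ (s : 𝒜.Sym) i, ((S s : M.toStarSubalgebra) : H →L[ℂ] H) * p i = p i * (S s) :=
    fun s i => 𝒜.sym_comm_P s (hpP i)
  have hSS : ∀ s : 𝒜.Sym, ∀ x : ι → M.toStarSubalgebra, rm M ι (S s) (rm M ι (S s) x) = x := by
    intro s x
    funext i
    rw [rm_apply, rm_apply, mul_assoc]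
    have : S s * S s = 1 := Subtype.ext s.2.2.2.1
    rw [this, mul_one]
  have hpM : ∀ i, p i ∈ M := fun i => 𝒜.mem _ (hpP i)
  have hin : ∀ (s : 𝒜.Sym) x (η : Rᗮ) y (η' : Rᗮ),
      ⟪g (S s) (x, η), e (y, η')⟫_ℂ = ⟪e (x, η), g (S s) (y, η')⟫_ℂ := by
    intro s x η y η'
    rw [hg, he, he, hg, inner_add_left, inner_add_right, inner_add_right, inner_add_left,
      inner_add_right, inner_add_right, horth, horth', horth, horth',
      inner_rm hM hpM hζ (S s) (hSs s) (hSp s)]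
  have hin2 : ∀ (s : 𝒜.Sym) x (η : Rᗮ) y (η' : Rᗮ),
      ⟪g (S s) (x, η), g (S s) (y, η')⟫_ℂ = ⟪e (x, η), e (y, η')⟫_ℂ := by
    intro s x η y η'
    have h1 := hin s x η (rm M ι (S s) y) η'
    have h2 : e (rm M ι (S s) y, η') = g (S s) (y, η') := rfl
    have h3 : g (S s) (rm M ι (S s) y, η') = e (y, η') := by
      rw [hg, he, hSS]
    rw [h2, h3] at h1
    exact h1
  have hnorm : ∀ (s : 𝒜.Sym) (x : (ι → M.toStarSubalgebra) × Rᗮ), ‖g (S s) x‖ ≤ 1 * ‖e x‖ := by
    rintro s ⟨x, η⟩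
    have h1 := hin2 s x η x η
    rw [inner_self_eq_norm_sq_to_K, inner_self_eq_norm_sq_to_K] at h1
    have h2 : ‖g (S s) (x, η)‖ ^ 2 = ‖e (x, η)‖ ^ 2 := by exact_mod_cast h1
    rw [one_mul]
    exact le_of_sq_le_sq h2.le (norm_nonneg _)
  obtain ⟨π, hπ⟩ : ∃ π : 𝒜.Sym → (H →L[ℂ] H), ∀ s x, π s (e x) = g (S s) x :=
    ⟨fun s => (g (S s)).extendOfNorm e, fun s x =>
      LinearMap.extendOfNorm_eq hdense ⟨1, hnorm s⟩ x⟩
  have hext : ∀ T T' : H →L[ℂ] H, (∀ x, T (e x) = T' (e x)) → T = T' := by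
    intro T T' h
    refine ContinuousLinearMap.ext fun v => ?_
    exact congrFun (hdense.equalizer T.continuous T'.continuous (funext h)) v
  have hge : ∀ (s : 𝒜.Sym) x (η : Rᗮ), g (S s) (x, η) = e (rm M ι (S s) x, η) := fun _ _ _ => rfl
  refine ⟨π, fun s => ?_, ?_, fun s t => ?_, fun s a ha => ?_, fun s i => ?_⟩
  · refine hext _ _ ?_
    rintro ⟨x, η⟩
    have h1 : ∀ w : H, ⟪w, star (π s) (e (x, η))⟫_ℂ = ⟪w, π s (e (x, η))⟫_ℂ := by
      intro w
      have h2 : (fun w : H => ⟪π s w, e (x, η)⟫_ℂ) = fun w : H => ⟪w, π s (e (x, η))⟫_ℂ := by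
        refine hdense.equalizer ?_ ?_ ?_
        · exact (π s).continuous.inner continuous_const
        · exact continuous_id.inner continuous_const
        · funext ⟨y, η'⟩
          change ⟪π s (e (y, η')), e (x, η)⟫_ℂ = ⟪e (y, η'), π s (e (x, η))⟫_ℂ
          rw [hπ, hπ]
          exact hin s y η' x η
      have h3 := congrFun h2 w
      rw [ContinuousLinearMap.star_eq_adjoint, ContinuousLinearMap.adjoint_inner_right]
      exact h3
    exact ext_inner_left ℂ h1
  · refine hext _ _ ?_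
    rintro ⟨x, η⟩
    rw [hπ, hge]
    have : rm M ι (S 1) x = x := by
      funext i
      rw [rm_apply]
      exact mul_one (x i)
    rw [this]
    rfl
  · refine hext _ _ ?_
    rintro ⟨x, η⟩
    rw [hπ, mul_apply_eq_comp, hπ, hge, hge, hπ, hge]
    congr 2
    funext i
    rw [rm_apply, rm_apply, rm_apply, mul_assoc]
    congr 1
    rw [mul_comm s t]
    rfl
  · refine hext _ _ ?_
    rintro ⟨x, η⟩
    have hη : a (η : H) ∈ Rᗮ := by
      rw [Submodule.mem_orthogonal]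
      rintro _ ⟨y, rfl⟩
      have h1 : ⟪rf M ζ y, a (η : H)⟫_ℂ = ⟪star a (rf M ζ y), (η : H)⟫_ℂ := by
        rw [ContinuousLinearMap.star_eq_adjoint, ContinuousLinearMap.adjoint_inner_left]
      have h2 : star a (rf M ζ y) = rf M ζ (fun i => ⟨star a, star_mem ha⟩ * y i) := by
        rw [rf_apply, rf_apply, map_sum]
        rfl
      rw [h1, h2]
      exact horth _ η
    have h1 : ∀ y, a (e (y, η)) = e (fun i => ⟨a, ha⟩ * y i, ⟨a η, hη⟩) := by
      intro y
      rw [he, he, map_add, rf_apply, rf_apply, map_sum]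
      rfl
    rw [mul_apply_eq_comp, mul_apply_eq_comp, h1, hπ, hge, hπ, hge, h1]
    congr 2
  · have h1 : ζ i = e (Pi.single i 1, 0) := by
      rw [he, rf_apply, Finset.sum_eq_single i]
      · rw [Pi.single_eq_same]
        simp
      · intro j _ hj
        rw [Pi.single_eq_of_ne hj]
        simp
      · intro h
        exact absurd (Finset.mem_univ i) h
    have h2 : s.1 (ζ i) = e (rm M ι (S s) (Pi.single i 1), 0) := by
      rw [he, rf_apply, Finset.sum_eq_single i]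
      · rw [rm_apply, Pi.single_eq_same, one_mul]
        simp [S]
      · intro j _ hj
        rw [rm_apply, Pi.single_eq_of_ne hj, zero_mul]
        simp
      · intro h
        exact absurd (Finset.mem_univ i) h
    rw [h2, h1, hπ, hge]

end right

end U161.KK
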