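import Mathlib
import Pool.Agent.U161.KK.Right

set_option linter.unusedSectionVars false

/-!
Orthogonal families of tracial vectors are transported between close II₁ factors.
-/

open scoped ComplexOrder InnerProductSpace ComplexConjugate Topology
open H759R2.Kad

noncomputable section

namespace U161.KK

universe u

variable {H : Type u} [NormedAddCommGroup H] [InnerProductSpace ℂ H] [CompleteSpace H]

section cj

/-- The algebra `u* N u`. -/
def vnConj (u : H →L[ℂ] H) (N : VonNeumannAlgebra H) : VonNeumannAlgebra H :=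
  vnCent {g | ∃ t ∈ N.commutant, g = star u * t * u}

theorem mem_vnConj {u : H →L[ℂ] H} {N : VonNeumannAlgebra H} (h1 : star u * u = 1)
    (h2 : u * star u = 1) {x : H →L[ℂ] H} : x ∈ vnConj u N ↔ u * x * star u ∈ N := by
  rw [vnConj, mem_vnCent]
  constructor
  · intro h
    rw [← VonNeumannAlgebra.commutant_commutant N, VonNeumannAlgebra.mem_commutant_iff]
    intro t ht
    have := (h _ ⟨t, ht, rfl⟩).1
    calc t * (u * x * star u) = (u * star u) * t * (u * x * star u) := by rw [h2, one_mul]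
      _ = u * (star u * t * u * x) * star u := by simp only [mul_assoc]
      _ = u * (x * (star u * t * u)) * star u := by rw [this]
      _ = u * x * star u * t * (u * star u) := by simp only [mul_assoc]
      _ = u * x * star u * t := by rw [h2, mul_one]
  · rintro h g ⟨t, ht, rfl⟩
    have key : ∀ t ∈ N.commutant, star u * t * u * x = x * (star u * t * u) := by
      intro t ht
      have := (VonNeumannAlgebra.mem_commutant_iff.1 ht) _ h
      calc star u * t * u * x = star u * t * u * x * (star u * u) := by rw [h1, mul_one]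
        _ = star u * (t * (u * x * star u)) * u := by simp only [mul_assoc]
        _ = star u * ((u * x * star u) * t) * u := by rw [this]
        _ = (star u * u) * x * (star u * t * u) := by simp only [mul_assoc]
        _ = x * (star u * t * u) := by rw [h1, one_mul]
    refine ⟨key t ht, ?_⟩
    have e : star (star u * t * u) = star u * star t * u := by
      rw [star_mul, star_mul, star_star, mul_assoc]
    rw [e]
    exact key _ (star_mem ht)

theorem tr_conj (u : H →L[ℂ] H) (ξ : ℕ → H) (x : H →L[ℂ] H) :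
    tr (fun n => star u (ξ n)) x = tr ξ (u * x * star u) := by
  rw [tr, tr]
  congr 1
  funext n
  rw [ContinuousLinearMap.star_eq_adjoint, ContinuousLinearMap.adjoint_inner_left]
  rfl

theorem IsNT.cj {N : VonNeumannAlgebra H} {ξ : ℕ → H} (h : IsNT N ξ) {u : H →L[ℂ] H}
    (h1 : star u * u = 1) (h2 : u * star u = 1) : IsNT (vnConj u N) (fun n => star u (ξ n)) where
  sum := by
    have : ∀ n, ‖star u (ξ n)‖ ^ 2 = ‖ξ n‖ ^ 2 := by
      intro n
      have e : ⟪star u (ξ n), star u (ξ n)⟫_ℂ = ⟪ξ n, ξ n⟫_ℂ := by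
        rw [ContinuousLinearMap.star_eq_adjoint, ContinuousLinearMap.adjoint_inner_left,
          ← ContinuousLinearMap.star_eq_adjoint, ← mul_apply_eq_comp, h2]
        rfl
      rw [inner_self_eq_norm_sq_to_K, inner_self_eq_norm_sq_to_K] at e
      exact_mod_cast e
    simp only [this]
    exact h.sum
  comm x hx y hy := by
    rw [mem_vnConj h1 h2] at hx hy
    rw [tr_conj, tr_conj]
    have e : ∀ x y : H →L[ℂ] H, u * (x * y) * star u = (u * x * star u) * (u * y * star u) := by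
      intro x y
      calc u * (x * y) * star u = u * x * (star u * u) * y * star u := by
            rw [h1, mul_one, mul_assoc u x y]
        _ = (u * x * star u) * (u * y * star u) := by simp only [mul_assoc]
    rw [e, e, h.comm _ hx _ hy]
  faithful x hx h0 := by
    rw [mem_vnConj h1 h2] at hx
    rw [tr_conj] at h0
    have e : u * (star x * x) * star u = star (u * x * star u) * (u * x * star u) := by
      rw [star_mul, star_mul, star_star]
      calc u * (star x * x) * star u = u * star x * (star u * u) * x * star u := by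
            rw [h1, mul_one, mul_assoc u (star x) x]
        _ = _ := by simp only [mul_assoc]
    rw [e] at h0
    have := h.faithful _ hx h0
    calc x = (star u * u) * x * (star u * u) := by rw [h1, mul_one, one_mul]
      _ = star u * (u * x * star u) * u := by simp only [mul_assoc]
      _ = 0 := by rw [this, mul_zero, zero_mul]

theorem norm_conj_sub' {u x : H →L[ℂ] H} (h2 : u * star u = 1) (h1 : star u * u = 1)
    {κ : ℝ} (h : ‖u - 1‖ ≤ κ) : ‖u * x * star u - x‖ ≤ 2 * κ * ‖x‖ := by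
  have hκ0 : 0 ≤ κ := (norm_nonneg _).trans h
  have hun := unitary_norm_le h1
  have e : u * x * star u - x = ((u - 1) * x - x * (u - 1)) * star u := by
    have : ((u - 1) * x - x * (u - 1)) * star u = u * x * star u - x * (u * star u) := by
      noncomm_ring
    rw [this, h2, mul_one]
  rw [e]
  have b1 : ‖(u - 1) * x - x * (u - 1)‖ ≤ 2 * κ * ‖x‖ := by
    have a1 : ‖(u - 1) * x‖ ≤ κ * ‖x‖ :=
      (norm_mul_le _ _).trans (mul_le_mul_of_nonneg_right h (norm_nonneg _))
    have a2 : ‖x * (u - 1)‖ ≤ ‖x‖ * κ :=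
      (norm_mul_le _ _).trans (mul_le_mul_of_nonneg_left h (norm_nonneg _))
    have := norm_sub_le ((u - 1) * x) (x * (u - 1))
    linarith
  calc ‖((u - 1) * x - x * (u - 1)) * star u‖ ≤ ‖(u - 1) * x - x * (u - 1)‖ * ‖star u‖ :=
        norm_mul_le _ _
    _ ≤ (2 * κ * ‖x‖) * 1 := by
        rw [norm_star]
        exact mul_le_mul b1 hun (norm_nonneg _) (by positivity)
    _ = 2 * κ * ‖x‖ := mul_one _

theorem star_unit_sub {u : H →L[ℂ] H} {κ : ℝ} (h : ‖u - 1‖ ≤ κ) : ‖star u - 1‖ ≤ κ := by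
  have : star u - 1 = star (u - 1) := by rw [star_sub, star_one]
  rw [this, norm_star]
  exact h

theorem Near.conj_right {M N : VonNeumannAlgebra H} {γ κ : ℝ} (hγ1 : γ ≤ 1 / 2)
    (h : Near M N γ) {u : H →L[ℂ] H} (h1 : star u * u = 1) (h2 : u * star u = 1)
    (hu : ‖u - 1‖ ≤ κ) : Near M (vnConj u N) (γ + 3 * κ) := by
  have hκ0 : 0 ≤ κ := (norm_nonneg _).trans hu
  intro x hx
  obtain ⟨y, hy, hxy⟩ := h x hx
  refine ⟨star u * y * u, ?_, ?_⟩
  · rw [mem_vnConj h1 h2]
    have : u * (star u * y * u) * star u = y := by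
      calc u * (star u * y * u) * star u = (u * star u) * y * (u * star u) := by
            simp only [mul_assoc]
        _ = y := by rw [h2, one_mul, mul_one]
    rw [this]
    exact hy
  · have hyn : ‖y‖ ≤ 3 / 2 * ‖x‖ := by
      have e : y = x - (x - y) := by abel
      calc ‖y‖ = ‖x - (x - y)‖ := by rw [← e]
        _ ≤ ‖x‖ + ‖x - y‖ := norm_sub_le _ _
        _ ≤ 3 / 2 * ‖x‖ := by nlinarith [norm_nonneg x]
    have hc := norm_conj_sub' (u := star u) (x := y) (by rw [star_star]; exact h1)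
      (by rw [star_star]; exact h2) (star_unit_sub hu)
    rw [star_star] at hc
    have e : x - star u * y * u = (x - y) - (star u * y * u - y) := by abel
    rw [e]
    refine (norm_sub_le _ _).trans ?_
    have : 2 * κ * ‖y‖ ≤ 3 * κ * ‖x‖ := by nlinarith
    linarith

theorem Near.conj_left {M N : VonNeumannAlgebra H} {γ κ : ℝ} (hγ0 : 0 ≤ γ)
    (h : Near N M γ) {u : H →L[ℂ] H} (h1 : star u * u = 1) (h2 : u * star u = 1)
    (hu : ‖u - 1‖ ≤ κ) : Near (vnConj u N) M (γ + 3 * κ) := by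
  have hκ0 : 0 ≤ κ := (norm_nonneg _).trans hu
  intro x hx
  rw [mem_vnConj h1 h2] at hx
  obtain ⟨y, hy, hxy⟩ := h _ hx
  refine ⟨y, hy, ?_⟩
  have hn : ‖u * x * star u‖ ≤ ‖x‖ := by
    have hun := unitary_norm_le h1
    calc ‖u * x * star u‖ ≤ ‖u * x‖ * ‖star u‖ := norm_mul_le _ _
      _ ≤ (‖u‖ * ‖x‖) * ‖star u‖ := mul_le_mul_of_nonneg_right (norm_mul_le _ _) (norm_nonneg _)
      _ ≤ (1 * ‖x‖) * 1 := by
          rw [norm_star]
          refine mul_le_mul ?_ hun (norm_nonneg _) (by positivity)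
          exact mul_le_mul_of_nonneg_right hun (norm_nonneg _)
      _ = ‖x‖ := by ring
  have hc := norm_conj_sub' (x := x) h2 h1 hu
  have e : x - y = (u * x * star u - y) - (u * x * star u - x) := by abel
  rw [e]
  refine (norm_sub_le _ _).trans ?_
  have : γ * ‖u * x * star u‖ ≤ γ * ‖x‖ := mul_le_mul_of_nonneg_left hn hγ0
  nlinarith [norm_nonneg x]

end cj

section expect

variable {M : VonNeumannAlgebra H} (𝒜 : Masa M)

/-- The averages over the group of symmetries. -/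
def Ex (y : H →L[ℂ] H) : H →L[ℂ] H := mean (fun s : 𝒜.Sym => s.1 * y * s.1)

theorem sym_norm_le (s : 𝒜.Sym) : ‖s.1‖ ≤ 1 := unitary_norm_le (by rw [s.2.2.1, s.2.2.2.1])

theorem Ex_bound (y : H →L[ℂ] H) (s : 𝒜.Sym) : ‖s.1 * y * s.1‖ ≤ ‖y‖ := by
  have h := sym_norm_le 𝒜 s
  calc ‖s.1 * y * s.1‖ ≤ ‖s.1 * y‖ * ‖s.1‖ := norm_mul_le _ _
    _ ≤ (‖s.1‖ * ‖y‖) * ‖s.1‖ := mul_le_mul_of_nonneg_right (norm_mul_le _ _) (norm_nonneg _)
    _ ≤ (1 * ‖y‖) * 1 := by
        refine mul_le_mul ?_ h (norm_nonneg _) (by positivity)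
        exact mul_le_mul_of_nonneg_right h (norm_nonneg _)
    _ = ‖y‖ := by ring

theorem Ex_comm (y : H →L[ℂ] H) {p : H →L[ℂ] H} (hp : p ∈ 𝒜.P) :
    Ex 𝒜 y * p = p * Ex 𝒜 y := by
  refine 𝒜.comm_of_sym (fun k => ?_) hp
  have h1 : k.1 * Ex 𝒜 y * k.1 = Ex 𝒜 y := by
    rw [Ex, ← mean_mul (Ex_bound 𝒜 y)]
    have := mean_translate 𝒜.sym_sq (Ex_bound 𝒜 y) k
    rw [← this]
    congr 1
    funext s
    rw [𝒜.sym_mul_val]
    have e := 𝒜.sym_comm s k
    calc k.1 * (s.1 * y * s.1) * k.1 = (k.1 * s.1) * y * (s.1 * k.1) := by simp only [mul_assoc]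
      _ = (s.1 * k.1) * y * (s.1 * k.1) := by rw [e]
  calc Ex 𝒜 y * k.1 = (k.1 * Ex 𝒜 y * k.1) * k.1 := by rw [h1]
    _ = k.1 * Ex 𝒜 y * (k.1 * k.1) := by simp only [mul_assoc]
    _ = k.1 * Ex 𝒜 y := by rw [k.2.2.2.1, mul_one]

theorem sym_mem {N : VonNeumannAlgebra H} (hP : ∀ p ∈ 𝒜.P, p ∈ N) (s : 𝒜.Sym) : s.1 ∈ N := by
  have h := hP _ (𝒜.half_mem s)
  have e : s.1 = 1 - (2 : ℂ) • ((2 : ℂ)⁻¹ • (1 - s.1)) := by
    rw [smul_smul]
    norm_num
  rw [e]
  exact sub_mem (OneMemClass.one_mem N) (SMulMemClass.smul_mem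
    (S := StarSubalgebra ℂ (H →L[ℂ] H)) (s := N.toStarSubalgebra) _ h)

theorem Ex_mem {N : VonNeumannAlgebra H} (hP : ∀ p ∈ 𝒜.P, p ∈ N) {y : H →L[ℂ] H} (hy : y ∈ N) :
    Ex 𝒜 y ∈ N :=
  mean_mem N (Ex_bound 𝒜 y) fun s => mul_mem (mul_mem (sym_mem 𝒜 hP s) hy) (sym_mem 𝒜 hP s)

theorem span_mem {N : VonNeumannAlgebra H} (hP : ∀ p ∈ 𝒜.P, p ∈ N) {y : H →L[ℂ] H}
    (hy : y ∈ (Submodule.span ℂ 𝒜.P).topologicalClosure) : y ∈ N := by
  have h1 : (Submodule.span ℂ 𝒜.P).topologicalClosure ≤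
      Subalgebra.toSubmodule N.toStarSubalgebra.toSubalgebra := by
    refine Submodule.topologicalClosure_minimal _ ?_ (vn_isClosed' N)
    rw [Submodule.span_le]
    exact fun p hp => hP p hp
  exact h1 hy

/-- The relative commutant of the family in a nearby algebra. -/
theorem rc_near {N : VonNeumannAlgebra H} (hP : ∀ p ∈ 𝒜.P, p ∈ N) {γ : ℝ} (hγ : γ ≤ 1 / 2)
    (hnear : Near N M γ) {b : H →L[ℂ] H} (hb : b ∈ N) (hbc : ∀ p ∈ 𝒜.P, b * p = p * b) :
    b ∈ (Submodule.span ℂ 𝒜.P).topologicalClosure := by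
  set A := (Submodule.span ℂ 𝒜.P).topologicalClosure with hA
  have hAc : IsClosed (A : Set (H →L[ℂ] H)) := Submodule.isClosed_topologicalClosure _
  have hAcomm : ∀ a ∈ A, ∀ p ∈ 𝒜.P, a * p = p * a := by
    intro a ha p hp
    have h1 : A ≤ Subalgebra.toSubmodule
        ((vnCent {p} : VonNeumannAlgebra H).toStarSubalgebra.toSubalgebra) := by
      refine Submodule.topologicalClosure_minimal _ ?_ (vn_isClosed' _)
      rw [Submodule.span_le]
      intro q hq
      have : q ∈ (vnCent {p} : VonNeumannAlgebra H) := by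
        rw [mem_vnCent]
        rintro g hg
        rw [Set.mem_singleton_iff] at hg
        subst hg
        rw [(𝒜.pr g hp).1]
        exact ⟨𝒜.comm g hp q hq, 𝒜.comm g hp q hq⟩
      exact this
    have h2 : a ∈ (vnCent {p} : VonNeumannAlgebra H) := h1 ha
    rw [mem_vnCent] at h2
    exact (h2 p rfl).1.symm
  by_contra hbA
  have hne : (A : Set (H →L[ℂ] H)).Nonempty := ⟨0, A.zero_mem⟩
  have hd : 0 < Metric.infDist b (A : Set (H →L[ℂ] H)) :=
    (hAc.notMem_iff_infDist_pos hne).1 hbA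
  obtain ⟨a, ha, hab⟩ := (Metric.infDist_lt_iff hne (r := 2 * Metric.infDist b A)).1 (by linarith)
  obtain ⟨x, hx, hxb⟩ := hnear (b - a) (sub_mem hb (span_mem 𝒜 hP ha))
  have hEx : Ex 𝒜 x ∈ A := 𝒜.mem_closure (Ex_mem 𝒜 𝒜.mem hx) fun p hp => Ex_comm 𝒜 x hp
  have hbac : ∀ p ∈ 𝒜.P, (b - a) * p = p * (b - a) := by
    intro p hp
    rw [sub_mul, mul_sub, hbc p hp, hAcomm a ha p hp]
  have hfix : ∀ s : 𝒜.Sym, s.1 * (b - a) * s.1 = b - a := by
    intro s
    obtain ⟨q, hq⟩ : ∃ q : H →L[ℂ] H, q = (2 : ℂ)⁻¹ • (1 - s.1) := ⟨_, rfl⟩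
    have h1 := hbac q (by rw [hq]; exact 𝒜.half_mem s)
    have e : s.1 = 1 - (2 : ℂ) • q := by
      rw [hq, smul_smul]
      norm_num
    have h2 : s.1 * (b - a) = (b - a) * s.1 := by
      rw [e, mul_sub (b - a), sub_mul, mul_smul_comm, smul_mul_assoc, h1, mul_one, one_mul]
    rw [h2, mul_assoc, s.2.2.2.1, mul_one]
  have hdist : ‖(b - a) - Ex 𝒜 x‖ ≤ γ * ‖b - a‖ := by
    have e : (b - a) - Ex 𝒜 x = mean (fun s : 𝒜.Sym => s.1 * ((b - a) - x) * s.1) := by
      have e1 : (fun s : 𝒜.Sym => s.1 * ((b - a) - x) * s.1) =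
          fun s : 𝒜.Sym => s.1 * (b - a) * s.1 - s.1 * x * s.1 := by
        funext s
        rw [mul_sub, sub_mul]
      rw [e1, mean_sub (Ex_bound 𝒜 (b - a)) (Ex_bound 𝒜 x)]
      simp only [hfix]
      rw [mean_const]
      rfl
    rw [e]
    refine mean_norm_le fun s => (Ex_bound 𝒜 _ s).trans hxb
  have h3 : Metric.infDist b (A : Set (H →L[ℂ] H)) ≤ dist b (a + Ex 𝒜 x) :=
    Metric.infDist_le_dist_of_mem (A.add_mem ha hEx)
  have h4 : dist b (a + Ex 𝒜 x) = ‖(b - a) - Ex 𝒜 x‖ := by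
    rw [dist_eq_norm]
    congr 1
    abel
  rw [dist_eq_norm] at hab
  rw [h4] at h3
  nlinarith [norm_nonneg (b - a)]

end expect

end U161.KK
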