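import Mathlib
import Pool.Agent.U161.KK.Main

set_option linter.unusedSectionVars false

/-!
Transport of orthogonal families of tracial vectors between close II₁ factors: families whose
projections commute.
-/

open scoped ComplexOrder InnerProductSpace ComplexConjugate Topology
open H759R2.Kad

noncomputable section

namespace U161.KK

universe u

variable {H : Type u} [NormedAddCommGroup H] [InnerProductSpace ℂ H] [CompleteSpace H]

/-- The vectors `ζ i` have mutually orthogonal cyclic modules, and the vector functional of `ζ i`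
is `tr ξ (· * p i)`. -/
def Fam (M : VonNeumannAlgebra H) (ξ : ℕ → H) {ι : Type} [DecidableEq ι] (ζ : ι → H)
    (p : ι → (H →L[ℂ] H)) : Prop :=
  ∀ i j, ∀ x ∈ M, ⟪ζ i, x (ζ j)⟫_ℂ = if i = j then tr ξ (x * p i) else 0

/-- Linear functionals given by traces which agree on `P` agree on the closed span. -/
theorem tr_eq_on_span {ξ ξ' : ℕ → H} (hs : Summable fun n => ‖ξ n‖ ^ 2)
    (hs' : Summable fun n => ‖ξ' n‖ ^ 2) {P : Set (H →L[ℂ] H)} (h : ∀ p ∈ P, tr ξ p = tr ξ' p)
    {a : H →L[ℂ] H} (ha : a ∈ (Submodule.span ℂ P).topologicalClosure) : tr ξ a = tr ξ' a := by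
  have h1 : (Submodule.span ℂ P).topologicalClosure ≤
      LinearMap.ker (trL hs - trL hs').toLinearMap := by
    refine Submodule.topologicalClosure_minimal _ ?_ (ContinuousLinearMap.isClosed_ker _)
    rw [Submodule.span_le]
    intro p hp
    change (trL hs - trL hs') p = 0
    rw [sub_apply, trL_apply, trL_apply, h p hp, sub_self]
  have h2 : (trL hs - trL hs') a = 0 := h1 ha
  rw [sub_apply, trL_apply, trL_apply] at h2
  exact sub_eq_zero.1 h2

/-- The core computation: if the family of projections and the right action of its symmetries are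
adapted to `N`, then the family of vectors is adapted to `N`. -/
theorem fam_core {M N : VonNeumannAlgebra H} {ξ ξ' : ℕ → H} (τ : M.toStarSubalgebra →ₗ[ℂ] ℂ)
    (hII : IsII1 M τ) (hM : IsNT M ξ) (hN : IsNT N ξ') {γ : ℝ} (hγ0 : 0 ≤ γ) (hγ : γ ≤ 1 / 1000000)
    (hMN : Near M N γ) (hNM : Near N M γ) (𝒜 : Masa M) (hP : ∀ p ∈ 𝒜.P, p ∈ N)
    {ι : Type} [Fintype ι] [DecidableEq ι] {ζ : ι → H} {p : ι → (H →L[ℂ] H)}
    (hpP : ∀ i, p i ∈ 𝒜.P) (hζ : Fam M ξ ζ p)
    {π : 𝒜.Sym → (H →L[ℂ] H)} (hπs : ∀ s, star (π s) = π s) (hπ2 : ∀ s, π s * π s = 1)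
    (hπN : ∀ s, ∀ y ∈ N, π s * y = y * π s) (hπζ : ∀ s i, π s (ζ i) = s.1 (ζ i)) :
    Fam N ξ' ζ p := by
  intro i j y hy
  have hagree : ∀ q ∈ 𝒜.P, tr ξ q = tr ξ' q := fun q hq =>
    tr_agree τ hII hM hN hγ0 hγ hMN (𝒜.pr q hq) (𝒜.mem q hq) (hP q hq)
  have hE : ∀ y ∈ N, Ex 𝒜 y ∈ (Submodule.span ℂ 𝒜.P).topologicalClosure := fun y hy =>
    rc_near 𝒜 hP (by linarith) hNM (Ex_mem 𝒜 hP hy) fun q hq => Ex_comm 𝒜 y hq
  -- the functionals are central
  have h1 : ⟪ζ i, Ex 𝒜 y (ζ j)⟫_ℂ = ⟪ζ i, y (ζ j)⟫_ℂ := by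
    have := mean_tsum (ι := Unit) (ξ := fun _ => ζ i) (η := fun _ => ζ j)
      (f := fun s : 𝒜.Sym => s.1 * y * s.1) (Ex_bound 𝒜 y) (summable_of_hasFiniteSupport
        (Set.toFinite _)) ⟪ζ i, y (ζ j)⟫_ℂ (fun s => by
        rw [tsum_fintype, Fintype.sum_unique]
        calc ⟪ζ i, (s.1 * y * s.1) (ζ j)⟫_ℂ = ⟪s.1 (ζ i), y (s.1 (ζ j))⟫_ℂ := by
              have : (s.1 * y * s.1) (ζ j) = s.1 (y (s.1 (ζ j))) := rfl
              rw [this]
              conv_lhs => rw [← s.2.2.1]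
              rw [ContinuousLinearMap.star_eq_adjoint, ContinuousLinearMap.adjoint_inner_right,
                ← ContinuousLinearMap.star_eq_adjoint, s.2.2.1]
          _ = ⟪π s (ζ i), y (π s (ζ j))⟫_ℂ := by rw [hπζ, hπζ]
          _ = ⟪ζ i, π s (y (π s (ζ j)))⟫_ℂ := by
              conv_rhs => rw [← hπs s]
              rw [ContinuousLinearMap.star_eq_adjoint, ContinuousLinearMap.adjoint_inner_right,
                ← ContinuousLinearMap.star_eq_adjoint, hπs]
          _ = ⟪ζ i, (y * (π s * π s)) (ζ j)⟫_ℂ := by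
              rw [← mul_assoc, ← hπN s y hy]
              rfl
          _ = ⟪ζ i, y (ζ j)⟫_ℂ := by rw [hπ2, mul_one])
    rw [tsum_fintype, Fintype.sum_unique] at this
    exact this
  have h2 : ∀ z ∈ N, tr ξ' (Ex 𝒜 z) = tr ξ' z := by
    intro z hz
    have := mean_tsum (ξ := ξ') (η := ξ') (f := fun s : 𝒜.Sym => s.1 * z * s.1) (Ex_bound 𝒜 z)
      (by
        have := hN.summable
        simpa [sq] using this) (tr ξ' z) (fun s => by
        have hs : s.1 ∈ N := sym_mem 𝒜 hP s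
        have := hN.comm (s.1 * z) (mul_mem hs hz) s.1 hs
        change tr ξ' (s.1 * z * s.1) = _
        rw [this, ← mul_assoc, s.2.2.2.1, one_mul])
    exact this
  have hyp : y * p i ∈ N := mul_mem hy (hP _ (hpP i))
  have h3 : Ex 𝒜 y * p i = Ex 𝒜 (y * p i) := by
    rw [Ex, Ex, ← mean_mul_right (Ex_bound 𝒜 y)]
    congr 1
    funext s
    rw [mul_assoc, 𝒜.sym_comm_P s (hpP i)]
    simp only [mul_assoc]
  rw [← h1, hζ i j _ (span_mem 𝒜 𝒜.mem (hE y hy))]
  by_cases hij : i = j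
  · rw [if_pos hij, if_pos hij, h3, tr_eq_on_span hM.summable hN.summable hagree (hE _ hyp),
      h2 _ hyp]
  · rw [if_neg hij, if_neg hij]

/-- The distance below which the transport works. -/
def δ0 : ℝ := 1 / (10 ^ 30 * R0)

theorem δ0_pos : 0 < δ0 := by
  have := one_le_R0
  rw [δ0]
  positivity

/-- Transport of families with commuting projections. -/
theorem fam_transport {M N : VonNeumannAlgebra H} {ξ ξ' : ℕ → H} (τ : M.toStarSubalgebra →ₗ[ℂ] ℂ)
    (hII : IsII1 M τ) (hM : IsNT M ξ) (hN : IsNT N ξ') {γ : ℝ} (hγ0 : 0 ≤ γ) (hγ : γ ≤ δ0)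
    (hMN : Near M N γ) (hNM : Near N M γ)
    {ι : Type} [Fintype ι] [DecidableEq ι] {ζ : ι → H} {p : ι → (H →L[ℂ] H)}
    (hpM : ∀ i, p i ∈ M) (hp : ∀ i, IsPr (p i)) (hpc : ∀ i j, p i * p j = p j * p i)
    (hζ : Fam M ξ ζ p) :
    ∃ (ζ' : ι → H) (p' : ι → (H →L[ℂ] H)), (∀ i, p' i ∈ N) ∧ (∀ i, IsPr (p' i)) ∧
      Fam N ξ' ζ' p' ∧ ∀ i, tr ξ' (p' i) = tr ξ (p i) := by
  have hR := one_le_R0
  have hδ : γ * (10 ^ 30 * R0) ≤ 1 := by
    have h1 : γ * (10 ^ 30 * R0) ≤ δ0 * (10 ^ 30 * R0) :=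
      mul_le_mul_of_nonneg_right hγ (by positivity)
    have h2 : δ0 * (10 ^ 30 * R0) = 1 := by
      rw [δ0, one_div, inv_mul_cancel₀ (by positivity)]
    linarith
  have hγR : γ * R0 ≤ 1 / 10 ^ 30 := by
    rw [le_div_iff₀ (by positivity)]
    linarith
  have hγs : γ ≤ 1 / 10 ^ 30 := by nlinarith
  obtain ⟨𝒜, h𝒜⟩ := exists_masa M (Set.range p) (by rintro _ ⟨i, rfl⟩; exact hpM i)
    (by rintro _ ⟨i, rfl⟩; exact hp i) (by rintro _ ⟨i, rfl⟩ _ ⟨j, rfl⟩; exact hpc i j)
  have hpP : ∀ i, p i ∈ 𝒜.P := fun i => h𝒜 ⟨i, rfl⟩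
  -- first conjugation
  obtain ⟨u, hu1, hu2, hu3, hu4⟩ := masa_move 𝒜 hγ0 (by norm_num at hγs ⊢; linarith) hMN
  set N0 := vnConj u N with hN0
  have hP0 : ∀ q ∈ 𝒜.P, q ∈ N0 := fun q hq => (mem_vnConj hu1 hu2).2 (hu4 q hq)
  have hMN0 : Near M N0 (γ + 3 * (2975 * γ)) :=
    hMN.conj_right (by norm_num at hγs ⊢; linarith) hu1 hu2 hu3
  have hN0M : Near N0 M (γ + 3 * (2975 * γ)) := hNM.conj_left hγ0 hu1 hu2 hu3
  have hγ' : γ + 3 * (2975 * γ) ≤ 10000 * γ := by linarith
  -- the right action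
  obtain ⟨π, hπs, hπ1, hπm, hπM, hπζ⟩ := exists_right hM 𝒜 hpP hζ
  have hcomm := hN0M.commutant (by positivity)
  set ε := R0 * (2 * (γ + 3 * (2975 * γ))) with hε
  have hε1 : ε ≤ 20000 / 10 ^ 30 := by
    have : ε ≤ R0 * (20000 * γ) := by
      rw [hε]
      exact mul_le_mul_of_nonneg_left (by linarith) (by linarith)
    have h2 : R0 * (20000 * γ) = 20000 * (γ * R0) := by ring
    rw [h2] at this
    have h3 : 20000 * (γ * R0) ≤ 20000 * (1 / 10 ^ 30) := mul_le_mul_of_nonneg_left hγR (by norm_num)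
    linarith
  have hε0 : 0 ≤ ε := by rw [hε]; positivity
  obtain ⟨v, hv1, hv2, hv3, hv4, hv5⟩ := stab (G := 𝒜.Sym) (π := π) 𝒜.sym_sq hπs hπ1 hπm
    N0.commutant hε0 (by norm_num at hε1 ⊢; linarith) (fun s => by
      have hπmem : π s ∈ M.commutant := by
        rw [VonNeumannAlgebra.mem_commutant_iff]
        intro x hx
        exact (hπM s x hx).symm
      obtain ⟨y, hy, hy'⟩ := hcomm (π s) hπmem
      refine ⟨y, hy, hy'.trans ?_⟩
      have : ‖π s‖ ≤ 1 := unitary_norm_le (by rw [hπs, ← hπm, 𝒜.sym_sq, hπ1])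
      nlinarith)
  have hvs : ∀ s : 𝒜.Sym, s.1 * v = v * s.1 := by
    intro s
    refine hv5 _ (fun t => (hπM t _ s.2.1).symm) fun y hy => ?_
    exact (VonNeumannAlgebra.mem_commutant_iff.1 hy) _ (sym_mem 𝒜 hP0 s)
  -- second conjugation
  set N1 := vnConj v N0 with hN1
  have hP1 : ∀ q ∈ 𝒜.P, q ∈ N1 := by
    intro q hq
    rw [hN1, mem_vnConj hv1 hv2]
    have : v * q = q * v := (𝒜.comm_of_sym (fun s => (hvs s).symm) hq)
    rw [this, mul_assoc, hv2, mul_one]
    exact hP0 q hq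
  have hMN1 : Near M N1 (γ + 3 * (2975 * γ) + 3 * (2975 * ε)) :=
    hMN0.conj_right (by norm_num at hγs ⊢; linarith) hv1 hv2 hv3
  have hN1M : Near N1 M (γ + 3 * (2975 * γ) + 3 * (2975 * ε)) :=
    hN0M.conj_left (by positivity) hv1 hv2 hv3
  have hN0t : IsNT N0 (fun n => star u (ξ' n)) := hN.cj hu1 hu2
  have hN1t : IsNT N1 (fun n => star v (star u (ξ' n))) := hN0t.cj hv1 hv2
  have hcore : Fam N1 (fun n => star v (star u (ξ' n))) ζ p := by
    refine fam_core τ hII hM hN1t (γ := γ + 3 * (2975 * γ) + 3 * (2975 * ε)) (by positivity) ?_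
      hMN1 hN1M 𝒜 hP1 hpP hζ hπs (fun s => by rw [← hπm, 𝒜.sym_sq, hπ1]) ?_ hπζ
    · norm_num at hγs hε1 ⊢
      linarith
    · intro s y hy
      rw [hN1, mem_vnConj hv1 hv2] at hy
      have h1 := (VonNeumannAlgebra.mem_commutant_iff.1 (hv4 s)) _ hy
      calc π s * y = (star v * v) * π s * (star v * v) * y * (star v * v) := by
            rw [hv1, one_mul, mul_one, mul_one]
        _ = star v * ((v * π s * star v) * (v * y * star v)) * v := by simp only [mul_assoc]
        _ = star v * ((v * y * star v) * (v * π s * star v)) * v := by rw [h1]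
        _ = (star v * v) * y * (star v * v) * π s * (star v * v) := by simp only [mul_assoc]
        _ = y * π s := by rw [hv1, one_mul, mul_one, mul_one]
  -- transport back
  have hWW : star (u * v) * (u * v) = 1 := by
    rw [star_mul]
    calc star v * star u * (u * v) = star v * (star u * u) * v := by simp only [mul_assoc]
      _ = 1 := by rw [hu1, mul_one, hv1]
  have hWW' : (u * v) * star (u * v) = 1 := by
    rw [star_mul]
    calc u * v * (star v * star u) = u * (v * star v) * star u := by simp only [mul_assoc]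
      _ = 1 := by rw [hv2, mul_one, hu2]
  have htr : ∀ x : H →L[ℂ] H, tr (fun n => star v (star u (ξ' n))) x =
      tr ξ' ((u * v) * x * star (u * v)) := by
    intro x
    rw [tr_conj v (fun n => star u (ξ' n)) x, tr_conj u ξ', star_mul]
    simp only [mul_assoc]
  have hmem1 : ∀ x : H →L[ℂ] H, x ∈ N1 ↔ (u * v) * x * star (u * v) ∈ N := by
    intro x
    rw [hN1, mem_vnConj hv1 hv2, hN0, mem_vnConj hu1 hu2, star_mul]
    have : u * (v * x * star v) * star u = u * v * x * (star v * star u) := by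
      simp only [mul_assoc]
    rw [this]
  refine ⟨fun i => (u * v) (ζ i), fun i => (u * v) * p i * star (u * v), fun i => ?_, fun i => ?_,
    fun i j y hy => ?_, fun i => ?_⟩
  · exact (hmem1 _).1 (hP1 _ (hpP i))
  · exact isPr_conj hWW (hp i)
  · have e1 : (u * v) * (star (u * v) * y * (u * v)) * star (u * v) = y := by
      calc (u * v) * (star (u * v) * y * (u * v)) * star (u * v) =
          ((u * v) * star (u * v)) * y * ((u * v) * star (u * v)) := by simp only [mul_assoc]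
        _ = y := by rw [hWW', one_mul, mul_one]
    have hy1 : star (u * v) * y * (u * v) ∈ N1 := by
      rw [hmem1, e1]
      exact hy
    have h1 := hcore i j _ hy1
    have e2 : ⟪(u * v) (ζ i), y ((u * v) (ζ j))⟫_ℂ =
        ⟪ζ i, (star (u * v) * y * (u * v)) (ζ j)⟫_ℂ := by
      have : (star (u * v) * y * (u * v)) (ζ j) = star (u * v) (y ((u * v) (ζ j))) := rfl
      rw [this, ContinuousLinearMap.star_eq_adjoint, ContinuousLinearMap.adjoint_inner_right]
    rw [e2, h1]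
    by_cases hij : i = j
    · rw [if_pos hij, if_pos hij, htr]
      congr 1
      calc (u * v) * (star (u * v) * y * (u * v) * p i) * star (u * v) =
          ((u * v) * star (u * v)) * y * ((u * v) * p i * star (u * v)) := by
            simp only [mul_assoc]
        _ = y * ((u * v) * p i * star (u * v)) := by rw [hWW', one_mul]
    · rw [if_neg hij, if_neg hij]
  · rw [← htr]
    refine (tr_agree τ hII hM hN1t (γ := γ + 3 * (2975 * γ) + 3 * (2975 * ε)) (by positivity) ?_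
      hMN1 (hp i) (hpM i) (hP1 _ (hpP i))).symm
    norm_num at hγs hε1 ⊢
    linarith

end U161.KK
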