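import Mathlib
import Pool.Agent.U161.KK.Main2

set_option linter.unusedSectionVars false

/-!
Transport of arbitrary finite families, by replacing the projections with equivalent commuting ones.
-/

open scoped ComplexOrder InnerProductSpace ComplexConjugate Topology
open H759R2.Kad

noncomputable section

namespace U161.KK

universe u

variable {H : Type u} [NormedAddCommGroup H] [InnerProductSpace ℂ H] [CompleteSpace H]

/-- Comparison of projections in a factor by their traces. -/
theorem exists_sub {M : VonNeumannAlgebra H} {ξ : ℕ → H} (hF : IsFac M) (hM : IsNT M ξ)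
    {f p : H →L[ℂ] H} (hfM : f ∈ M) (hpM : p ∈ M) (hf : IsPr f) (hp : IsPr p)
    (hle : (tr ξ f).re ≤ (tr ξ p).re) : ∃ v ∈ M, star v * v = f ∧ p * v = v := by
  obtain ⟨v, hvM, ⟨h1, h2⟩ | ⟨h1, h2⟩⟩ := fac_comp H M hF f hfM p hpM hf hp
  · exact ⟨v, hvM, h1, h2⟩
  · have hg1 : (star v * v) * f = star v * v := by rw [mul_assoc, h2]
    have hpv : p * v = v := by
      have e2 : (v - p * v) * star (v - p * v) = 0 := by
        rw [star_sub, star_mul, hp.1, mul_sub, sub_mul, sub_mul, h1]
        have a1 : p * v * star v = p * p := by rw [mul_assoc, h1]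
        have a2 : v * (star v * p) = p * p := by rw [← mul_assoc, h1]
        have a3 : p * v * (star v * p) = p * p * p := by
          rw [mul_assoc, a2, mul_assoc]
        rw [a1, a2, a3, hp.2, hp.2]
        abel
      have e3 := (CStarRing.mul_star_self_eq_zero_iff (v - p * v)).1 e2
      exact (sub_eq_zero.1 e3).symm
    have hgp : IsPr (star v * v) := by
      refine ⟨by rw [star_mul, star_star], ?_⟩
      calc star v * v * (star v * v) = star v * (v * star v) * v := by simp only [mul_assoc]
        _ = star v * v := by rw [h1, mul_assoc, hpv]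
    have hgM : star v * v ∈ M := mul_mem (star_mem hvM) hvM
    have hg1' : f * (star v * v) = star v * v := by
      have := congrArg star hg1
      rwa [star_mul, hf.1, star_mul, star_star] at this
    have hd : IsPr (f - star v * v) := isPr_sub hgp hf hg1'
    have htr : (tr ξ (f - star v * v)).re ≤ 0 := by
      rw [tr_sub hM.summable, Complex.sub_re, hM.comm _ (star_mem hvM) _ hvM, h1]
      linarith
    have htr0 : tr ξ (star (f - star v * v) * (f - star v * v)) = 0 := by
      rw [hd.1, hd.2]
      refine Complex.ext ?_ (tr_proj_im hM.summable hd)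
      exact le_antisymm htr (tr_proj_nonneg hM.summable hd)
    have h0 := hM.faithful _ (sub_mem hfM hgM) htr0
    have h0' : star v * v = f := (sub_eq_zero.1 h0).symm
    exact ⟨v, hvM, h0', hpv⟩

/-- Finitely many projections are equivalent to commuting ones. -/
theorem exists_chain {M : VonNeumannAlgebra H} {ξ : ℕ → H} (hF : IsFac M) (hM : IsNT M ξ)
    {ι : Type} [DecidableEq ι] (p : ι → (H →L[ℂ] H)) (hpM : ∀ i, p i ∈ M)
    (hp : ∀ i, IsPr (p i)) (n : ℕ) : ∀ (s : Finset ι), s.card = n → ∀ q : H →L[ℂ] H, q ∈ M →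
      IsPr q → (∀ i ∈ s, (tr ξ (p i)).re ≤ (tr ξ q).re) →
      ∃ w : ι → (H →L[ℂ] H), (∀ i ∈ s, w i ∈ M ∧ star (w i) * w i = p i ∧ q * w i = w i) ∧
        ∀ i ∈ s, ∀ j ∈ s, (w i * star (w i)) * (w j * star (w j)) =
          (w j * star (w j)) * (w i * star (w i)) := by
  induction n with
  | zero =>
    intro s hs q _ _ _
    rw [Finset.card_eq_zero] at hs
    subst hs
    exact ⟨fun _ => 0, by simp, by simp⟩
  | succ n ih =>
    intro s hs q hqM hq hle
    have hne : s.Nonempty := by
      rw [← Finset.card_pos, hs]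
      exact Nat.succ_pos n
    obtain ⟨i0, hi0, hmax⟩ := Finset.exists_max_image s (fun i => (tr ξ (p i)).re) hne
    obtain ⟨v, hvM, hv1, hv2⟩ := exists_sub hF hM (hpM i0) hqM (hp i0) hq (hle i0 hi0)
    have hvp : v * p i0 = v := by
      have e2 : star (v - v * p i0) * (v - v * p i0) = 0 := by
        rw [star_sub, star_mul, (hp i0).1, sub_mul, mul_sub, mul_sub, hv1]
        have a1 : star v * (v * p i0) = p i0 * p i0 := by rw [← mul_assoc, hv1]
        have a2 : p i0 * star v * v = p i0 * p i0 := by rw [mul_assoc, hv1]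
        have a3 : p i0 * star v * (v * p i0) = p i0 * p i0 * p i0 := by
          rw [mul_assoc, a1, mul_assoc]
        rw [a1, a2, a3, (hp i0).2, (hp i0).2]
        abel
      have e3 := (CStarRing.star_mul_self_eq_zero_iff (v - v * p i0)).1 e2
      exact (sub_eq_zero.1 e3).symm
    set q1 := v * star v with hq1
    have hq1M : q1 ∈ M := mul_mem hvM (star_mem hvM)
    have hq1p : IsPr q1 := by
      refine ⟨by rw [hq1, star_mul, star_star], ?_⟩
      calc v * star v * (v * star v) = v * (star v * v) * star v := by simp only [mul_assoc]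
        _ = v * star v := by rw [hv1, hvp]
    have hq1q : q * q1 = q1 := by rw [hq1, ← mul_assoc, hv2]
    have hq1tr : tr ξ q1 = tr ξ (p i0) := by
      rw [hq1, hM.comm _ hvM _ (star_mem hvM), hv1]
    obtain ⟨w, hw1, hw2⟩ := ih (s.erase i0) (by rw [Finset.card_erase_of_mem hi0, hs]; rfl) q1 hq1M
      hq1p (fun i hi => by
        rw [hq1tr]
        exact hmax i (Finset.mem_of_mem_erase hi))
    have hcomm : ∀ i ∈ s.erase i0, q1 * (w i * star (w i)) = (w i * star (w i)) * q1 := by
      intro i hi
      have h1 := (hw1 i hi).2.2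
      have h2 : star (w i) * q1 = star (w i) := by
        have := congrArg star h1
        rwa [star_mul, hq1p.1] at this
      rw [← mul_assoc, h1, mul_assoc, h2]
    refine ⟨Function.update w i0 v, fun i hi => ?_, fun i hi j hj => ?_⟩
    · by_cases h : i = i0
      · subst h
        rw [Function.update_self]
        exact ⟨hvM, hv1, hv2⟩
      · rw [Function.update_of_ne h]
        have h1 := hw1 i (Finset.mem_erase.2 ⟨h, hi⟩)
        refine ⟨h1.1, h1.2.1, ?_⟩
        rw [← h1.2.2, ← mul_assoc, hq1q]
    · by_cases h : i = i0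
      · by_cases h' : j = i0
        · rw [h, h']
        · rw [h, Function.update_self, Function.update_of_ne h']
          exact hcomm j (Finset.mem_erase.2 ⟨h', hj⟩)
      · by_cases h' : j = i0
        · rw [h', Function.update_self, Function.update_of_ne h]
          exact (hcomm i (Finset.mem_erase.2 ⟨h, hi⟩)).symm
        · rw [Function.update_of_ne h, Function.update_of_ne h']
          exact hw2 i (Finset.mem_erase.2 ⟨h, hi⟩) j (Finset.mem_erase.2 ⟨h', hj⟩)

theorem mul_pr_of_star {w p : H →L[ℂ] H} (hp : IsPr p) (h : star w * w = p) : w * p = w := by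
  have e2 : star (w - w * p) * (w - w * p) = 0 := by
    rw [star_sub, star_mul, hp.1, sub_mul, mul_sub, mul_sub, h]
    have a1 : star w * (w * p) = p * p := by rw [← mul_assoc, h]
    have a2 : p * star w * w = p * p := by rw [mul_assoc, h]
    have a3 : p * star w * (w * p) = p * p * p := by
      rw [mul_assoc, a1, mul_assoc]
    rw [a1, a2, a3, hp.2, hp.2]
    abel
  have e3 := (CStarRing.star_mul_self_eq_zero_iff (w - w * p)).1 e2
  exact (sub_eq_zero.1 e3).symm

/-- Transport of arbitrary finite families. -/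
theorem fam_transport' {M N : VonNeumannAlgebra H} {ξ ξ' : ℕ → H}
    (τ : M.toStarSubalgebra →ₗ[ℂ] ℂ)
    (hII : IsII1 M τ) (hM : IsNT M ξ) (hN : IsNT N ξ') {γ : ℝ} (hγ0 : 0 ≤ γ) (hγ : γ ≤ δ0)
    (hMN : Near M N γ) (hNM : Near N M γ)
    {ι : Type} [Fintype ι] [DecidableEq ι] {ζ : ι → H} {p : ι → (H →L[ℂ] H)}
    (hpM : ∀ i, p i ∈ M) (hp : ∀ i, IsPr (p i)) (hζ : Fam M ξ ζ p) :
    ∃ (ζ' : ι → H) (p' : ι → (H →L[ℂ] H)), (∀ i, p' i ∈ N) ∧ (∀ i, IsPr (p' i)) ∧
      Fam N ξ' ζ' p' ∧ ∀ i, tr ξ' (p' i) = tr ξ (p i) := by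
  obtain ⟨w, hw1, hw2⟩ := exists_chain hII.center hM p hpM hp _ Finset.univ rfl 1
    (OneMemClass.one_mem M) ⟨star_one _, one_mul _⟩ (fun i _ =>
      tr_mono hM.summable (hp i) ⟨star_one _, one_mul _⟩ (one_mul _))
  have hwM : ∀ i, w i ∈ M := fun i => (hw1 i (Finset.mem_univ i)).1
  have hww : ∀ i, star (w i) * w i = p i := fun i => (hw1 i (Finset.mem_univ i)).2.1
  have hwp : ∀ i, w i * p i = w i := fun i => mul_pr_of_star (hp i) (hww i)
  have hqM : ∀ i, w i * star (w i) ∈ M := fun i => mul_mem (hwM i) (star_mem (hwM i))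
  have hq : ∀ i, IsPr (w i * star (w i)) := by
    intro i
    refine ⟨by rw [star_mul, star_star], ?_⟩
    calc w i * star (w i) * (w i * star (w i)) = w i * (star (w i) * w i) * star (w i) := by
          simp only [mul_assoc]
      _ = w i * star (w i) := by rw [hww, hwp]
  have hqtr : ∀ i, tr ξ (w i * star (w i)) = tr ξ (p i) := by
    intro i
    rw [hM.comm _ (hwM i) _ (star_mem (hwM i)), hww]
  have hfam : Fam M ξ (fun i => w i (ζ i)) (fun i => w i * star (w i)) := by
    intro i j x hx
    have h1 := hζ i j (star (w i) * x * w j) (mul_mem (mul_mem (star_mem (hwM i)) hx) (hwM j))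
    have e : ⟪w i (ζ i), x (w j (ζ j))⟫_ℂ = ⟪ζ i, (star (w i) * x * w j) (ζ j)⟫_ℂ := by
      have : (star (w i) * x * w j) (ζ j) = star (w i) (x (w j (ζ j))) := rfl
      rw [this, ContinuousLinearMap.star_eq_adjoint, ContinuousLinearMap.adjoint_inner_right]
    rw [e, h1]
    by_cases hij : i = j
    · subst hij
      rw [if_pos rfl, if_pos rfl]
      have h2 := hM.comm (star (w i)) (star_mem (hwM i)) (x * w i * p i)
        (mul_mem (mul_mem hx (hwM i)) (hpM i))
      calc tr ξ (star (w i) * x * w i * p i) = tr ξ (star (w i) * (x * w i * p i)) := by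
            simp only [mul_assoc]
        _ = tr ξ (x * w i * p i * star (w i)) := h2
        _ = tr ξ (x * (w i * star (w i))) := by
            rw [mul_assoc x, hwp, mul_assoc]
    · rw [if_neg hij, if_neg hij]
  obtain ⟨ζ', p', h1, h2, h3, h4⟩ := fam_transport τ hII hM hN hγ0 hγ hMN hNM hqM hq
    (fun i j => hw2 i (Finset.mem_univ i) j (Finset.mem_univ j)) hfam
  exact ⟨ζ', p', h1, h2, h3, fun i => (h4 i).trans (hqtr i)⟩

end U161.KK
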